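import Pool.Agent.H619R2.PM.Gadget

/-!
# The defect of a partition is at least the number of bad groups

`P₁` consists of the pairs `ab`, `cd` and `P₂` of the pairs `bc`, `da` of all groups.  For every
partition `Y`, `c (P₁ ⊔ Y) + c (P₂ ⊔ Y) + b ≤ c Y + g`, where `g` is the number of groups and `b` is
the number of the groups in which `Y` contains neither `ab, cd` nor `bc, da`.
-/

namespace Pool.Agent.Y410.PM

open Module Pool.Agent.H619R2.PM

variable {ι α : Type}

/-- `Y` contains neither `ab, cd` nor `bc, da`. -/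
def Bad (G : Gad ι α) (Y : Setoid α) (x : ι) : Prop :=
  ¬ (Y (G.a x) (G.b x) ∧ Y (G.c x) (G.d x)) ∧ ¬ (Y (G.b x) (G.c x) ∧ Y (G.d x) (G.a x))

/-- The alternating sum of the values on a group. -/
def altL (G : Gad ι α) (x : ι) : Module.Dual ℚ (α → ℚ) :=
  (LinearMap.proj (G.a x) : (α → ℚ) →ₗ[ℚ] ℚ) - LinearMap.proj (G.b x) + LinearMap.proj (G.c x) -
    LinearMap.proj (G.d x)

theorem altL_apply (G : Gad ι α) (x : ι) (f : α → ℚ) :
    altL G x f = f (G.a x) - f (G.b x) + f (G.c x) - f (G.d x) := by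
  simp [altL]

/-- If the alternating sum vanishes on all functions constant on the classes of `Y`, then the group
is not bad. -/
theorem exists_alt_ne {G : Gad ι α} {Y : Setoid α} {x : ι} (hx : Bad G Y x) :
    ∃ f ∈ V Y, altL G x f ≠ 0 := by
  by_contra hcon
  push Not at hcon
  have h1 := hcon _ (ind_mem Y (G.a x))
  have h2 := hcon _ (ind_mem Y (G.c x))
  rw [altL_apply] at h1 h2
  rw [ind_self] at h1 h2
  have e1 : ∀ {u v}, Y u v → ind Y v u = 1 := fun h => ind_of h
  have e0 : ∀ {u v}, ¬ Y u v → ind Y v u = 0 := fun h => ind_of_not h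
  obtain ⟨hx1, hx2⟩ := hx
  by_cases hac : Y (G.a x) (G.c x)
  · have hca := Y.symm' hac
    rw [e1 hca] at h1
    by_cases hba : Y (G.b x) (G.a x)
    · by_cases hda : Y (G.d x) (G.a x)
      · exact hx2 ⟨Y.trans' hba hac, hda⟩
      · rw [e1 hba, e0 hda] at h1
        norm_num at h1
    · by_cases hda : Y (G.d x) (G.a x)
      · rw [e0 hba, e1 hda] at h1
        norm_num at h1
      · rw [e0 hba, e0 hda] at h1
        norm_num at h1
  · have hca : ¬ Y (G.c x) (G.a x) := fun h => hac (Y.symm' h)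
    rw [e0 hca] at h1
    rw [e0 hac] at h2
    by_cases hba : Y (G.b x) (G.a x)
    · have hbc : ¬ Y (G.b x) (G.c x) := fun h => hac (Y.trans' (Y.symm' hba) h)
      by_cases hdc : Y (G.d x) (G.c x)
      · exact hx1 ⟨Y.symm' hba, Y.symm' hdc⟩
      · rw [e0 hbc, e0 hdc] at h2
        norm_num at h2
    · by_cases hda : Y (G.d x) (G.a x)
      · have hdc : ¬ Y (G.d x) (G.c x) := fun h => hac (Y.trans' (Y.symm' hda) h)
        by_cases hbc : Y (G.b x) (G.c x)
        · exact hx2 ⟨hbc, hda⟩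
        · rw [e0 hbc, e0 hdc] at h2
          norm_num at h2
      · rw [e0 hba, e0 hda] at h1
        norm_num at h1

variable [Finite α] (G : Gad ι α) {P₁ P₂ : Setoid α} (h₁ : G.IsSt0 (fun _ => true) P₁)
  (h₂ : G.IsSt0 (fun _ => false) P₂)

/-- Multiplication by a function. -/
def mulL (f : α → ℚ) : (α → ℚ) →ₗ[ℚ] (α → ℚ) where
  toFun g := g * f
  map_add' g h := add_mul g h f
  map_smul' r g := by
    ext u
    simp [mul_assoc]

omit [Finite α] in
theorem mulL_apply (f g : α → ℚ) (u : α) : mulL f g u = g u * f u := rfl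

include h₁ h₂ in
/-- The number of bad groups is at most the defect. -/
theorem defect (Y : Setoid α) :
    c (P₁ ⊔ Y) + c (P₂ ⊔ Y) + Nat.card {x // Bad G Y x} ≤ c Y + Nat.card ι := by
  have := G.finite_ι
  obtain ⟨f, hf, hne⟩ := Module.Dual.exists_forall_mem_ne_zero_of_forall_exists (V Y)
    (fun x : {x // Bad G Y x} => altL G x.1) (fun x => exists_alt_ne x.2)
  have hadd := G.c_add h₁ h₂ Y
  set N : Submodule ℚ (α → ℚ) := V G.Q ⊓ V Y with hN
  set U : Submodule ℚ (α → ℚ) := (V P₁ ⊓ V Y) ⊔ (V P₂ ⊓ V Y) with hU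
  -- alternating sums vanish on `U`
  have haltU : ∀ u ∈ U, ∀ x, u (G.a x) - u (G.b x) + u (G.c x) - u (G.d x) = 0 := by
    intro u hu x
    rw [hU, Submodule.mem_sup] at hu
    obtain ⟨f1, hf1, f2, hf2, rfl⟩ := hu
    have k1 := ((h₁ f1).1 (Submodule.mem_inf.1 hf1).1 x).1 rfl
    have k2 := ((h₂ f2).1 (Submodule.mem_inf.1 hf2).1 x).2 rfl
    simp only [Pi.add_apply]
    rw [k1.1, k1.2, k2.1, k2.2]
    ring
  -- the map `(ψ, u) ↦ (ψ f + u, ψ on the good groups)`
  let T : (N × U) →ₗ[ℚ] (α → ℚ) := ((mulL f).comp N.subtype).coprod U.subtype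
  have hT : ∀ (ψ : N) (u : U), T (ψ, u) = mulL f ψ.1 + u.1 := by
    intro ψ u
    simp [T]
  have hrange : ∀ p, T p ∈ V Y := by
    rintro ⟨ψ, u⟩
    rw [hT]
    refine Submodule.add_mem _ ?_ ?_
    · intro v w hvw
      rw [mulL_apply, mulL_apply, (Submodule.mem_inf.1 ψ.2).2 v w hvw, hf v w hvw]
    · exact (sup_le inf_le_right inf_le_right : U ≤ V Y) u.2
  let S : (N × U) →ₗ[ℚ] ({x // ¬ Bad G Y x} → ℚ) :=
    LinearMap.pi fun x => (LinearMap.proj (G.a x.1) : (α → ℚ) →ₗ[ℚ] ℚ) ∘ₗ N.subtype ∘ₗ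
      LinearMap.fst ℚ N U
  let W : (N × U) →ₗ[ℚ] (V Y × ({x // ¬ Bad G Y x} → ℚ)) :=
    (LinearMap.codRestrict (V Y) T hrange).prod S
  have hW : Function.Injective W := by
    rintro ⟨ψ, u⟩ ⟨ψ', u'⟩ h
    have hT' : T (ψ, u) = T (ψ', u') := congrArg (fun q => (q.1 : α → ℚ)) h
    have hS' : S (ψ, u) = S (ψ', u') := congrArg (fun q => q.2) h
    rw [hT, hT] at hT'
    have hv : ∀ v, ψ.1 v * f v + u.1 v = ψ'.1 v * f v + u'.1 v := fun v => congrFun hT' v
    have hψ : ∀ x, ψ.1 (G.a x) = ψ'.1 (G.a x) := by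
      intro x
      by_cases hx : Bad G Y x
      · have e := haltU _ u.2 x
        have e' := haltU _ u'.2 x
        have va := hv (G.a x)
        have vb := hv (G.b x)
        have vc := hv (G.c x)
        have vd := hv (G.d x)
        have q := (G.mem_VQ.1 (Submodule.mem_inf.1 ψ.2).1) x
        have q' := (G.mem_VQ.1 (Submodule.mem_inf.1 ψ'.2).1) x
        rw [← q.1, ← q'.1] at vb
        rw [← q.2.1, ← q'.2.1] at vc
        rw [← q.2.2, ← q'.2.2] at vd
        have e2 : (ψ.1 (G.a x) - ψ'.1 (G.a x)) * altL G x f = 0 := by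
          rw [altL_apply]
          linear_combination va - vb + vc - vd - e + e'
        rcases mul_eq_zero.1 e2 with h | h
        · exact sub_eq_zero.1 h
        · exact absurd h (hne ⟨x, hx⟩)
      · exact congrFun hS' ⟨x, hx⟩
    have hψ0 : ψ = ψ' := by
      apply Subtype.ext
      funext v
      have q := (G.mem_VQ.1 (Submodule.mem_inf.1 ψ.2).1) (G.gd v)
      have q' := (G.mem_VQ.1 (Submodule.mem_inf.1 ψ'.2).1) (G.gd v)
      have hx := hψ (G.gd v)
      rcases G.cover v with k | k | k | k <;> rw [k]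
      · exact hx
      · rw [← q.1, ← q'.1]
        exact hx
      · rw [← q.2.1, ← q'.2.1]
        exact hx
      · rw [← q.2.2, ← q'.2.2]
        exact hx
    subst hψ0
    have hu0 : u = u' := by
      apply Subtype.ext
      funext v
      have := hv v
      linarith
    rw [hu0]
  classical
  have := Fintype.ofFinite ι
  have hk := LinearMap.finrank_le_finrank_of_injective hW
  rw [Module.finrank_prod, Module.finrank_prod, Module.finrank_pi,
    ← Nat.card_eq_fintype_card] at hk
  have hcard : Nat.card {x // Bad G Y x} + Nat.card {x // ¬ Bad G Y x} = Nat.card ι := by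
    rw [Nat.card_eq_fintype_card, Nat.card_eq_fintype_card, Nat.card_eq_fintype_card,
      Fintype.card_subtype_compl]
    have := Fintype.card_subtype_le (Bad G Y)
    omega
  have hcY : c Y = finrank ℚ (V Y) := rfl
  omega

end Pool.Agent.Y410.PM
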