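import Pool.Agent.Y410.PM.Upper

/-!
# The partition median problem is NP-hard already for four partitions

Loebl's problem: given partitions `X₁, …, X_k` of a finite set `S`, find a partition `Y` which
minimises `∑ d(X_i, Y)`, where `d(X, Y)` is the least number of operations (split a class into two,
join two classes) which turn `X` into `Y`.

For `k ≤ 2` the problem is trivial (`Y = X₁` is optimal).  We show that it is NP-hard already for
`k = 4`, even if three of the four partitions are fixed partitions which depend on `|S| = 4g` only: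
`X₁` has the classes `{2i, 2i+1}`, `X₂` has the classes `{4i+1, 4i+2}`, `{4i+3, 4i}` and `X₄` has only
classes with one element.  So the only part of the input is the partition `X₃`.

The key is that for every partition `Y` the number of the groups `{4i, 4i+1, 4i+2, 4i+3}` for which
neither the two classes of `X₁` nor the two classes of `X₂` in the group lie inside classes of `Y` is
at most `(d(X₁, Y) + d(Y, X₂) - d(X₁, X₂)) / 2`.  So in an optimal partition the groups act as
constraints (either p ~ q and r ~ s, or q ~ r and s ~ p) on the classes of `X₃`, and with them one can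
express the satisfiability of a formula: the classes of `X₃ ⊔ Y` are the side of truth and the side of
falsity.
-/

namespace Pool.Agent.Y410.PM.Four

open Pool.Agent.NPC Pool.Agent.H619R2.PM Pool.Agent.Y410.PM

/-- `Xs` is a nonempty list of (label vectors of) partitions of `{0, …, n-1}`, with labels smaller
than `n`. -/
def WF (n : ℕ) (Xs : List (List ℕ)) : Prop :=
  Xs ≠ [] ∧ ∀ X ∈ Xs, X.length = n ∧ ∀ l ∈ X, l < n

/-- There are four partitions: the partition into the pairs `{2i, 2i+1}`, the partition into the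
pairs `{4i+1, 4i+2}` and `{4i, 4i+3}`, an arbitrary partition, and the partition into singletons. -/
def Four (n : ℕ) (Xs : List (List ℕ)) : Prop :=
  4 ∣ n ∧ ∃ X : List ℕ, Xs = [(List.range n).map (fun u => 2 * (u / 2)),
    (List.range n).map (fun u => if u % 4 = 3 then u - 3 else if u % 4 = 2 then u - 1 else u),
    X, List.range n]

/-- The decision problem for four partitions of the form `Four`: is there a partition `Y` of
`{0, …, n-1}` for which the sum of the distances to the four given partitions is at most the given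
number? -/
def PartitionMedianFour (I : List (List ℕ) × ℕ) : Prop :=
  ∃ n, WF n I.1 ∧ Four n I.1 ∧ ∃ Y : Setoid (Fin n), cost n I.1 Y ≤ I.2

theorem small_ren3 (φ : F3) : Small (ren3 φ) := by
  have hlen : (vars3 φ).length = 3 * φ.length := by
    unfold vars3
    rw [List.length_flatMap]
    simp [mul_comm]
  have hg : gg (ren3 φ) = 3 * φ.length + 1 := by
    unfold gg ren3
    rw [List.length_map]
  have key : ∀ v ∈ vars3 φ, index (vars3 φ) v < gg (ren3 φ) := by
    intro v hv
    have h := getElem?_index hv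
    have := (List.getElem?_eq_some_iff.1 h).1
    omega
  intro c hc
  unfold ren3 at hc
  rw [List.mem_map] at hc
  obtain ⟨d, hd, rfl⟩ := hc
  obtain ⟨h1, h2, h3⟩ := mem_vars3 hd
  exact ⟨key _ h1, key _ h2, key _ h3⟩

/-- 3SAT with small names of variables. -/
theorem hardPr : HardPr (fun φ : F3 => Small φ) SAT3 :=
  hardPr_SAT3.trans (f := ren3 (V := ℕ)) ren3_poly
    (fun φ _ => small_ren3 φ) (fun φ _ => ren3_sat φ)

theorem wf_inst4 {φ : F3} (hs : Small φ) : WF (4 * ng φ) (inst4 φ) := by
  constructor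
  · unfold inst4
    simp
  · intro X hX
    unfold inst4 at hX
    simp only [List.mem_cons, List.not_mem_nil, or_false] at hX
    rcases hX with rfl | rfl | rfl | rfl
    · refine ⟨by simp [vst], fun l hl => ?_⟩
      simp only [vst, List.mem_map, List.mem_range] at hl
      obtain ⟨u, hu, rfl⟩ := hl
      exact lab_lt _ hu
    · refine ⟨by simp [vst], fun l hl => ?_⟩
      simp only [vst, List.mem_map, List.mem_range] at hl
      obtain ⟨u, hu, rfl⟩ := hl
      exact lab_lt _ hu
    · refine ⟨by simp [X], fun l hl => ?_⟩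
      simp only [Pool.Agent.Y410.PM.X, List.mem_map, List.mem_range] at hl
      obtain ⟨u, hu, rfl⟩ := hl
      exact L_lt hs u
    · refine ⟨by simp, fun l hl => ?_⟩
      simpa using hl

theorem four_inst4 (φ : F3) : Four (4 * ng φ) (inst4 φ) := by
  refine ⟨Dvd.intro _ rfl, Pool.Agent.Y410.PM.X φ, ?_⟩
  unfold inst4 vst lab
  simp

theorem eq_of_wf4 {φ : F3} {n : ℕ} (h : WF n (inst4 φ)) : n = 4 * ng φ := by
  have h1 : List.range (4 * ng φ) ∈ inst4 φ := by
    unfold inst4
    simp
  have := (h.2 _ h1).1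
  rw [← this]
  simp

theorem hardPr_median : HardPr (fun _ => True) PartitionMedianFour := by
  refine hardPr.trans (f := fun φ => (inst4 φ, thr4 φ)) (NPC.Poly.pair poly_inst4 poly_thr4)
    (fun _ _ => trivial) (fun φ hs => ?_)
  constructor
  · rintro ⟨τ, hτ⟩
    exact ⟨4 * ng φ, wf_inst4 hs, four_inst4 φ, _, upper4 hs hτ⟩
  · rintro ⟨n, hn, _, Y, hY⟩
    obtain rfl := eq_of_wf4 hn
    classical
    obtain ⟨τ, hτ⟩ : ∃ τ : ℕ → Bool, ∀ v, τ v = true ↔ ∃ t < 4 * mm φ,
        Y (E φ (4 * Pool.Agent.Y410.PM.cp φ v t)) (E φ (4 * Pool.Agent.Y410.PM.cp φ v t + 1)) :=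
      ⟨fun v => decide _, fun v => decide_eq_true_iff⟩
    exact ⟨τ, lower4 hs hY (fun v _ => hτ v)⟩

/-- the assignment read off from a label vector -/
def asg (φ : F3) (Y : List ℕ) (v : ℕ) : Bool :=
  (List.range (4 * mm φ)).any (fun t =>
    decide (Y.getD (4 * (v + t * mm φ)) 0 = Y.getD (4 * (v + t * mm φ) + 1) 0))

/-- all clauses are satisfied by the assignment read off from a label vector -/
def test (p : F3 × List ℕ) : Bool :=
  p.1.all (fun c => (decide (asg p.1 p.2 c.1.2 = c.1.1) ||
    (decide (asg p.1 p.2 c.2.1.2 = c.2.1.1) || decide (asg p.1 p.2 c.2.2.2 = c.2.2.1))))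

@[fun_prop]
theorem poly_asg {α : Type} [TEnc α] {φ : α → F3} {Y : α → List ℕ} {v : α → ℕ}
    (hφ : NPC.Poly φ) (hY : NPC.Poly Y) (hv : NPC.Poly v) :
    NPC.Poly (fun a => asg (φ a) (Y a) (v a)) := by
  have h2 : NPC.Poly (fun a => mm (φ a)) := Poly_mm.comp hφ
  have h3 : NPC.Poly (fun a => List.range (4 * mm (φ a))) := poly_rangeM.comp hφ
  unfold asg
  fun_prop

theorem poly_test : NPC.Poly test := by
  unfold test
  fun_prop

theorem test_iff (φ : F3) (Y : List ℕ) : test (φ, Y) = true ↔ ∀ c ∈ φ, Tr (asg φ Y) c := by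
  unfold test Tr
  simp [List.all_eq_true]

/-- **The partition median problem is NP-hard for four partitions**, three of which are fixed. -/
theorem result :
    NPHardP PartitionMedianFour ∧
    ((∃ F : List Bool → List Bool, PolyTime F ∧
        ∀ (n : ℕ) (Xs : List (List ℕ)), WF n Xs → Four n Xs →
          ∃ Y : List ℕ, F (bits Xs) = bits Y ∧ Y.length = n ∧
            ∀ Z : Setoid (Fin n), cost n Xs (part n Y) ≤ cost n Xs Z) →
      ∀ L : Set (List Bool), InNP L → InP L) := by
  refine ⟨hardPr_median.toHardI.toNPHardP, ?_⟩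
  rintro ⟨F, hF, hopt⟩
  have h1 : PC (bits : F3 → List Bool) (fun x : List Bool => x) (fun φ => bits (inst4 φ)) := by
    obtain ⟨c, p, h⟩ := poly_inst4
    exact ⟨c, p, h⟩
  have h2 : PC (bits : F3 → List Bool) (fun x : List Bool => x) (fun φ => F (bits (inst4 φ))) :=
    PC.comp (g := F) (f := fun φ => bits (inst4 φ)) (H642R2.TMSim.polyTime_toPC hF) h1
  have h3 : NPC.Poly (fun φ : F3 => F (bits (inst4 φ))) :=
    PC.comp (g := fun x => x) (f := fun φ => F (bits (inst4 φ))) PC.rawIn h2
  have h4 : NPC.Poly (fun φ : F3 => unbits (List ℕ) (F (bits (inst4 φ)))) :=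
    poly_unbits.comp h3
  refine hardPr.collapse (d := fun φ => (unbits (List ℕ) (F (bits (inst4 φ)))).elim false
    (fun Y => test (φ, Y))) (NPC.Poly.optElim (h := fun φ Y => test (φ, Y)) h4
      (NPC.Poly.const _) poly_test) (fun φ hs => ?_)
  obtain ⟨Y, hY, hlen, hmin⟩ := hopt _ _ (wf_inst4 hs) (four_inst4 φ)
  rw [hY, unbits_bits, Option.elim_some, test_iff]
  constructor
  · rintro ⟨τ, hτ⟩
    have hup := upper4 hs hτ
    refine lower4 hs (le_trans (hmin _) hup) (fun v hv => ?_)
    unfold asg
    rw [List.any_eq_true]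
    have key : ∀ t < 4 * mm φ, (part (4 * ng φ) Y) (E φ (4 * Pool.Agent.Y410.PM.cp φ v t))
        (E φ (4 * Pool.Agent.Y410.PM.cp φ v t + 1)) ↔
        Y.getD (4 * (v + t * mm φ)) 0 = Y.getD (4 * (v + t * mm φ) + 1) 0 := by
      intro t ht
      have hlt := cp_lt (lt_of_lt_of_le hv (gg_le_mm φ)) ht
      have e1 : 4 * Pool.Agent.Y410.PM.cp φ v t % (4 * ng φ) = 4 * (v + t * mm φ) := by
        unfold Pool.Agent.Y410.PM.cp at hlt ⊢
        exact Nat.mod_eq_of_lt (by omega)
      have e2 : (4 * Pool.Agent.Y410.PM.cp φ v t + 1) % (4 * ng φ) = 4 * (v + t * mm φ) + 1 := by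
        unfold Pool.Agent.Y410.PM.cp at hlt ⊢
        exact Nat.mod_eq_of_lt (by omega)
      change Y.getD (4 * Pool.Agent.Y410.PM.cp φ v t % (4 * ng φ)) 0 =
        Y.getD ((4 * Pool.Agent.Y410.PM.cp φ v t + 1) % (4 * ng φ)) 0 ↔ _
      rw [e1, e2]
    constructor
    · rintro ⟨t, ht, h⟩
      rw [List.mem_range] at ht
      rw [decide_eq_true_eq] at h
      exact ⟨t, ht, (key t ht).2 h⟩
    · rintro ⟨t, ht, h⟩
      exact ⟨t, List.mem_range.2 ht, by rw [decide_eq_true_eq]; exact (key t ht).1 h⟩
  · intro h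
    exact ⟨_, h⟩

end Pool.Agent.Y410.PM.Four
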