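import Pool.Agent.Y410.PM.Defect
import Pool.Agent.H619R2.PM.Final

/-!
# The instance with four partitions

The constraint `(p, q, r, s)` on the classes of the third partition requires `p ~ q, r ~ s` or
`q ~ r, s ~ p`.
-/

namespace Pool.Agent.Y410.PM

open Module Pool.Agent.NPC Pool.Agent.H619R2.PM

/-- number of constraints -/
def mm (φ : F3) : ℕ := gg φ + 2 * φ.length

/-- number of groups: every constraint is repeated `4 m` times -/
def ng (φ : F3) : ℕ := 4 * mm φ * mm φ

/-- label of a literal -/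
def ll (l : Lit ℕ) : ℕ := if l.1 = true then 4 * l.2 + 1 else 4 * l.2 + 3

/-- the `k`-th clause -/
def cls (φ : F3) (k : ℕ) : Lit ℕ × Lit ℕ × Lit ℕ := φ.getD k ((false, 0), (false, 0), (false, 0))

/-- the label of the corner `r` of the constraint `i` -/
def hub (φ : F3) (i r : ℕ) : ℕ :=
  if i < gg φ then (if r = 0 then 0 else if r = 2 then 2 else 4 * i + r)
  else if (i - gg φ) % 2 = 0 then
    (if r = 0 then ll (cls φ ((i - gg φ) / 2)).1 else if r = 1 then 0 else 4 * i + r)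
  else (if r = 0 then ll (cls φ ((i - gg φ) / 2)).2.1 else if r = 1 then 4 * i - 2
    else if r = 2 then ll (cls φ ((i - gg φ) / 2)).2.2 else 4 * i + 3)

/-- the labels of the third partition -/
def L (φ : F3) (u : ℕ) : ℕ := hub φ ((u / 4) % mm φ) (u % 4)

/-- the third partition -/
def X (φ : F3) : List ℕ := (List.range (4 * ng φ)).map (L φ)

/-- the four partitions -/
def inst4 (φ : F3) : List (List ℕ) :=
  [vst (ng φ) (fun _ => true), vst (ng φ) (fun _ => false), X φ, List.range (4 * ng φ)]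

/-- the number of classes of the third partition -/
def cX (φ : F3) : ℕ := ((List.range (4 * ng φ)).filter (fun u => decide (L φ u = u))).length

/-- the threshold -/
def thr4 (φ : F3) : ℕ := 6 * ng φ + cX φ - 4

theorem gg_pos (φ : F3) : 0 < gg φ := by
  unfold gg
  omega

theorem gg_le_mm (φ : F3) : gg φ ≤ mm φ := by
  unfold mm
  omega

theorem mm_pos (φ : F3) : 0 < mm φ := lt_of_lt_of_le (gg_pos φ) (gg_le_mm φ)

theorem mm_le_ng (φ : F3) : 4 * mm φ ≤ ng φ := by
  unfold ng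
  have := mm_pos φ
  nlinarith

theorem ng_pos (φ : F3) : 0 < 4 * ng φ := by
  have := mm_pos φ
  have := mm_le_ng φ
  omega

theorem ll_div (l : Lit ℕ) : ll l / 4 = l.2 := by
  unfold ll
  split_ifs <;> omega

theorem ll_mod (l : Lit ℕ) : ll l % 4 = 1 ∨ ll l % 4 = 3 := by
  unfold ll
  split_ifs <;> omega

theorem cls_mem {φ : F3} {k : ℕ} (hk : k < φ.length) : cls φ k ∈ φ := by
  unfold cls
  rw [List.getD_eq_getElem _ _ hk]
  exact List.getElem_mem hk

/-- the numbers which are labels -/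
def IsHub (φ : F3) (h : ℕ) : Prop :=
  h = 0 ∨ h = 2 ∨ (h / 4 < gg φ ∧ (h % 4 = 1 ∨ h % 4 = 3)) ∨
    (gg φ ≤ h / 4 ∧ h / 4 < mm φ ∧ (h / 4 - gg φ) % 2 = 0 ∧ (h % 4 = 2 ∨ h % 4 = 3)) ∨
    (gg φ ≤ h / 4 ∧ h / 4 < mm φ ∧ (h / 4 - gg φ) % 2 = 1 ∧ h % 4 = 3)

theorem isHub_ll {φ : F3} {l : Lit ℕ} (h : l.2 < gg φ) : IsHub φ (ll l) :=
  Or.inr (Or.inr (Or.inl ⟨by rw [ll_div]; exact h, ll_mod l⟩))

theorem isHub_hub {φ : F3} (hs : Small φ) {i r : ℕ} (hi : i < mm φ) (hr : r < 4) :
    IsHub φ (hub φ i r) := by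
  have hmm : mm φ = gg φ + 2 * φ.length := rfl
  unfold hub
  split_ifs with h1 h2 h3 h4 h5 h6 h7 h8 h9
  · exact Or.inl rfl
  · exact Or.inr (Or.inl rfl)
  · refine Or.inr (Or.inr (Or.inl ⟨by omega, by omega⟩))
  · exact isHub_ll (hs _ (cls_mem (by omega))).1
  · exact Or.inl rfl
  · refine Or.inr (Or.inr (Or.inr (Or.inl ⟨by omega, by omega, by omega, by omega⟩)))
  · exact isHub_ll (hs _ (cls_mem (by omega))).2.1
  · refine Or.inr (Or.inr (Or.inr (Or.inl ⟨by omega, by omega, by omega, by omega⟩)))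
  · exact isHub_ll (hs _ (cls_mem (by omega))).2.2
  · refine Or.inr (Or.inr (Or.inr (Or.inr ⟨by omega, by omega, by omega, by omega⟩)))

theorem IsHub.lt {φ : F3} {h : ℕ} (hh : IsHub φ h) : h < 4 * mm φ := by
  have := gg_pos φ
  have := gg_le_mm φ
  rcases hh with rfl | rfl | ⟨h1, h2⟩ | ⟨h1, h2, h3, h4⟩ | ⟨h1, h2, h3, h4⟩ <;> omega

theorem IsHub.L_eq {φ : F3} {h : ℕ} (hh : IsHub φ h) : L φ h = h := by
  have g0 := gg_pos φ
  have g1 := gg_le_mm φ
  have hlt := hh.lt
  have hd : h / 4 < mm φ := by omega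
  unfold L
  rw [Nat.mod_eq_of_lt hd]
  unfold hub
  rcases hh with rfl | rfl | ⟨h1, h2⟩ | ⟨h1, h2, h3, h4⟩ | ⟨h1, h2, h3, h4⟩
  · simp [g0]
  · simp [g0]
  · rw [if_pos h1, if_neg (by omega), if_neg (by omega)]
    omega
  · rw [if_neg (by omega), if_pos h3, if_neg (by omega), if_neg (by omega)]
    omega
  · rw [if_neg (by omega), if_neg (by omega), if_neg (by omega), if_neg (by omega),
      if_neg (by omega)]
    omega

theorem isHub_L {φ : F3} (hs : Small φ) (u : ℕ) : IsHub φ (L φ u) :=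
  isHub_hub hs (Nat.mod_lt _ (mm_pos φ)) (Nat.mod_lt _ (by norm_num))

theorem L_lt' {φ : F3} (hs : Small φ) (u : ℕ) : L φ u < 4 * mm φ := (isHub_L hs u).lt

theorem L_lt {φ : F3} (hs : Small φ) (u : ℕ) : L φ u < 4 * ng φ := by
  have h1 := L_lt' hs u
  have h2 := mm_le_ng φ
  omega

theorem L_L {φ : F3} (hs : Small φ) (u : ℕ) : L φ (L φ u) = L φ u := (isHub_L hs u).L_eq

/-! ### Elements -/

/-- the element with a given number -/
def E (φ : F3) (h : ℕ) : Fin (4 * ng φ) := ⟨h % (4 * ng φ), Nat.mod_lt _ (ng_pos φ)⟩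

theorem E_val {φ : F3} (u : Fin (4 * ng φ)) : E φ u = u :=
  Fin.ext (Nat.mod_eq_of_lt u.2)

theorem rel_L {φ : F3} (hs : Small φ) {u : ℕ} (hu : u < 4 * ng φ) :
    part (4 * ng φ) (X φ) (E φ u) (E φ (L φ u)) := by
  unfold X
  rw [part_range]
  change L φ (u % (4 * ng φ)) = L φ (L φ u % (4 * ng φ))
  rw [Nat.mod_eq_of_lt hu, Nat.mod_eq_of_lt (L_lt hs u), L_L hs]

/-- copy `t` of the constraint `i` -/
def cp (φ : F3) (i t : ℕ) : ℕ := i + t * mm φ

theorem cp_lt {φ : F3} {i t : ℕ} (hi : i < mm φ) (ht : t < 4 * mm φ) : cp φ i t < ng φ := by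
  unfold cp ng
  calc i + t * mm φ < mm φ + t * mm φ := by omega
    _ = (t + 1) * mm φ := by ring
    _ ≤ 4 * mm φ * mm φ := Nat.mul_le_mul_right _ ht

theorem cp_mod {φ : F3} {i t : ℕ} (hi : i < mm φ) : cp φ i t % mm φ = i := by
  unfold cp
  rw [Nat.add_mul_mod_self_right, Nat.mod_eq_of_lt hi]

theorem L_corner {φ : F3} {i t r : ℕ} (hi : i < mm φ) (hr : r < 4) :
    L φ (4 * cp φ i t + r) = hub φ i r := by
  unfold L
  have h1 : (4 * cp φ i t + r) / 4 = cp φ i t := by omega
  have h2 : (4 * cp φ i t + r) % 4 = r := by omega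
  rw [h1, h2, cp_mod hi]

theorem rel_corner {φ : F3} (hs : Small φ) {i t r : ℕ} (hi : i < mm φ) (ht : t < 4 * mm φ)
    (hr : r < 4) : part (4 * ng φ) (X φ) (E φ (4 * cp φ i t + r)) (E φ (hub φ i r)) := by
  have := rel_L hs (u := 4 * cp φ i t + r) (by
    have := cp_lt hi ht
    omega)
  rwa [L_corner hi hr] at this

theorem gad_a {φ : F3} (j : Fin (ng φ)) : (gad (ng φ)).a j = E φ (4 * j) :=
  Fin.ext (Nat.mod_eq_of_lt (by omega)).symm

theorem gad_b {φ : F3} (j : Fin (ng φ)) : (gad (ng φ)).b j = E φ (4 * j + 1) :=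
  Fin.ext (Nat.mod_eq_of_lt (by omega)).symm

theorem gad_c {φ : F3} (j : Fin (ng φ)) : (gad (ng φ)).c j = E φ (4 * j + 2) :=
  Fin.ext (Nat.mod_eq_of_lt (by omega)).symm

theorem gad_d {φ : F3} (j : Fin (ng φ)) : (gad (ng φ)).d j = E φ (4 * j + 3) :=
  Fin.ext (Nat.mod_eq_of_lt (by omega)).symm

/-! ### The number of classes -/

theorem c_part {n : ℕ} {L : ℕ → ℕ} (hL : ∀ u < n, L u < n) (hLL : ∀ u < n, L (L u) = L u) :
    c (part n ((List.range n).map L)) =
      ((List.range n).filter (fun u => decide (L u = u))).length := by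
  rw [c_eq_card]
  have e : Quotient (part n ((List.range n).map L)) ≃
      {u // u ∈ (Finset.range n).filter (fun u => L u = u)} :=
    { toFun := Quotient.lift (fun u => ⟨L u, by
        simp only [Finset.mem_filter, Finset.mem_range]
        exact ⟨hL u u.2, hLL u u.2⟩⟩) (by
          intro u v h
          have h' : part n ((List.range n).map L) u v := h
          rw [part_range] at h'
          exact Subtype.ext h')
      invFun := fun u => Quotient.mk _ ⟨u.1, (Finset.mem_range.1 (Finset.mem_filter.1 u.2).1)⟩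
      left_inv := by
        intro q
        induction q using Quotient.ind with | _ u =>
        apply Quotient.sound
        change part n ((List.range n).map L) _ _
        rw [part_range]
        exact hLL u u.2
      right_inv := by
        rintro ⟨u, hu⟩
        exact Subtype.ext (Finset.mem_filter.1 hu).2 }
  rw [Nat.card_congr e, Nat.card_eq_fintype_card, Fintype.card_coe]
  rfl

theorem c_X {φ : F3} (hs : Small φ) : c (part (4 * ng φ) (X φ)) = cX φ :=
  c_part (fun u _ => L_lt hs u) (fun u _ => L_L hs u)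

theorem cX_le {φ : F3} (hs : Small φ) : cX φ ≤ 4 * mm φ := by
  have h : cX φ = ((Finset.range (4 * ng φ)).filter (fun u => L φ u = u)).card := rfl
  rw [h]
  calc ((Finset.range (4 * ng φ)).filter (fun u => L φ u = u)).card
      ≤ (Finset.range (4 * mm φ)).card := Finset.card_le_card (by
        intro u hu
        rw [Finset.mem_filter] at hu
        rw [Finset.mem_range, ← hu.2]
        exact L_lt' hs u)
    _ = 4 * mm φ := Finset.card_range _

theorem two_le_c {α : Type} [Finite α] {Z : Setoid α} {u v : α} (h : ¬ Z u v) : 2 ≤ c Z := by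
  rw [c_eq_card]
  have : Nontrivial (Quotient Z) := ⟨Quotient.mk Z u, Quotient.mk Z v, fun h' => h (Quotient.exact h')⟩
  exact Finite.one_lt_card

theorem c_le_one {α : Type} [Finite α] {Z : Setoid α} (w : α) (h : ∀ u, Z w u) : c Z ≤ 1 := by
  rw [c_eq_card]
  have : Subsingleton (Quotient Z) := by
    constructor
    intro p q
    induction p using Quotient.ind with | _ u =>
    induction q using Quotient.ind with | _ v =>
    exact Quotient.sound (Z.trans' (Z.symm' (h u)) (h v))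
  exact Finite.card_le_one_iff_subsingleton.2 this

/-! ### The cost -/

theorem part_id (n : ℕ) : part n (List.range n) = ⊥ := by
  have := part_range_id n
  rwa [List.map_id'] at this

theorem cost_inst4 {φ : F3} (hs : Small φ) (Y : Setoid (Fin (4 * ng φ))) :
    cost (4 * ng φ) (inst4 φ) Y +
      2 * (c (part _ (vst (ng φ) (fun _ => true)) ⊔ Y) +
        c (part _ (vst (ng φ) (fun _ => false)) ⊔ Y)) +
      2 * c (part _ (X φ) ⊔ Y) = 8 * ng φ + cX φ + 2 * c Y := by
  have h₁ := isSt_vst (ng φ) (fun _ => true)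
  have h₂ := isSt_vst (ng φ) (fun _ => false)
  have c1 := Gad.IsSt.c_eq _ h₁
  have c2 := Gad.IsSt.c_eq _ h₂
  rw [Nat.card_eq_fintype_card, Fintype.card_fin] at c1 c2
  have d1 := dist_eq (part _ (vst (ng φ) (fun _ => true))) Y
  have d2 := dist_eq (part _ (vst (ng φ) (fun _ => false))) Y
  have d3 := dist_eq (part _ (X φ)) Y
  have d4 := dist_eq ⊥ Y
  rw [bot_sup_eq, c_bot, Nat.card_eq_fintype_card, Fintype.card_fin] at d4
  rw [c_X hs] at d3
  have hc : cost (4 * ng φ) (inst4 φ) Y =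
      dist (part _ (vst (ng φ) (fun _ => true))) Y +
        (dist (part _ (vst (ng φ) (fun _ => false))) Y +
          (dist (part _ (X φ)) Y + dist ⊥ Y)) := by
    unfold cost inst4
    simp only [List.map_cons, List.map_nil, List.sum_cons, List.sum_nil, part_id, add_zero]
  rw [hc]
  omega

/-! ### Cheap partitions give satisfying assignments -/

/-- **Lower bound.** -/
theorem lower4 {φ : F3} (hs : Small φ) {Y : Setoid (Fin (4 * ng φ))}
    (hY : cost (4 * ng φ) (inst4 φ) Y ≤ thr4 φ) {τ : ℕ → Bool}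
    (hτ : ∀ v < gg φ, τ v = true ↔
      ∃ t < 4 * mm φ, Y (E φ (4 * cp φ v t)) (E φ (4 * cp φ v t + 1))) :
    ∀ k ∈ φ, Tr τ k := by
  have h₁ := isSt_vst (ng φ) (fun _ => true)
  have h₂ := isSt_vst (ng φ) (fun _ => false)
  have hdef := defect (gad (ng φ)) h₁.mem h₂.mem Y
  rw [Nat.card_eq_fintype_card (α := Fin (ng φ)), Fintype.card_fin] at hdef
  have hcost := cost_inst4 hs Y
  set π := part _ (X φ) ⊔ Y with hπ
  have hR : ∀ {u v}, part (4 * ng φ) (X φ) u v → π u v := fun h =>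
    (le_sup_left : part (4 * ng φ) (X φ) ≤ π) h
  have hYπ : ∀ {u v}, Y u v → π u v := fun h => (le_sup_right : Y ≤ π) h
  have hmp := mm_pos φ
  have hmn := mm_le_ng φ
  have hbad : Nat.card {x // Bad (gad (ng φ)) Y x} + 2 ≤ c π := by
    unfold thr4 at hY
    have := cX_le hs
    by_contra hcon
    omega
  have hcπ : c π ≤ 4 * mm φ := le_trans (c_anti (le_sup_left : part _ (X φ) ≤ π)) (by
    rw [c_X hs]
    exact cX_le hs)
  -- every constraint has a good copy
  have hgood : ∀ i < mm φ, ∃ t < 4 * mm φ,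
      (Y (E φ (4 * cp φ i t)) (E φ (4 * cp φ i t + 1)) ∧
        Y (E φ (4 * cp φ i t + 2)) (E φ (4 * cp φ i t + 3))) ∨
      (Y (E φ (4 * cp φ i t + 1)) (E φ (4 * cp φ i t + 2)) ∧
        Y (E φ (4 * cp φ i t + 3)) (E φ (4 * cp φ i t))) := by
    intro i hi
    by_contra hcon
    push Not at hcon
    have hb : ∀ t : Fin (4 * mm φ), Bad (gad (ng φ)) Y ⟨cp φ i t, cp_lt hi t.2⟩ := by
      intro t
      obtain ⟨k1, k2⟩ := hcon t t.2
      unfold Bad
      rw [gad_a, gad_b, gad_c, gad_d]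
      exact ⟨fun h => k1 h.1 h.2, fun h => k2 h.1 h.2⟩
    have hinj : Function.Injective (fun t : Fin (4 * mm φ) =>
        (⟨⟨cp φ i t, cp_lt hi t.2⟩, hb t⟩ : {x // Bad (gad (ng φ)) Y x})) := by
      intro s t hst
      have : cp φ i s = cp φ i t := congrArg (fun q => (q.1 : ℕ)) hst
      unfold cp at this
      have := Nat.eq_of_mul_eq_mul_right hmp (Nat.add_left_cancel this)
      exact Fin.ext this
    have := Nat.card_le_card_of_injective _ hinj
    rw [Nat.card_eq_fintype_card, Fintype.card_fin] at this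
    omega
  have hsat : ∀ i < mm φ,
      (π (E φ (hub φ i 0)) (E φ (hub φ i 1)) ∧ π (E φ (hub φ i 2)) (E φ (hub φ i 3))) ∨
      (π (E φ (hub φ i 1)) (E φ (hub φ i 2)) ∧ π (E φ (hub φ i 3)) (E φ (hub φ i 0))) := by
    intro i hi
    obtain ⟨t, ht, h⟩ := hgood i hi
    have r0 := hR (rel_corner hs hi ht (r := 0) (by norm_num))
    have r1 := hR (rel_corner hs hi ht (r := 1) (by norm_num))
    have r2 := hR (rel_corner hs hi ht (r := 2) (by norm_num))
    have r3 := hR (rel_corner hs hi ht (r := 3) (by norm_num))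
    rw [Nat.add_zero] at r0
    rcases h with ⟨a1, a2⟩ | ⟨a1, a2⟩
    · exact Or.inl ⟨π.trans' (π.symm' r0) (π.trans' (hYπ a1) r1),
        π.trans' (π.symm' r2) (π.trans' (hYπ a2) r3)⟩
    · exact Or.inr ⟨π.trans' (π.symm' r1) (π.trans' (hYπ a1) r2),
        π.trans' (π.symm' r3) (π.trans' (hYπ a2) r0)⟩
  -- variable constraints
  have hvar : ∀ v < gg φ,
      (π (E φ 0) (E φ (4 * v + 1)) ∧ π (E φ 2) (E φ (4 * v + 3))) ∨
      (π (E φ (4 * v + 1)) (E φ 2) ∧ π (E φ (4 * v + 3)) (E φ 0)) := by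
    intro v hv
    have := hsat v (lt_of_lt_of_le hv (gg_le_mm φ))
    simpa [hub, hv] using this
  -- clause constraints
  have hc1 : ∀ k < φ.length,
      (π (E φ (ll (cls φ k).1)) (E φ 0) ∧
        π (E φ (4 * (gg φ + 2 * k) + 2)) (E φ (4 * (gg φ + 2 * k) + 3))) ∨
      (π (E φ 0) (E φ (4 * (gg φ + 2 * k) + 2)) ∧
        π (E φ (4 * (gg φ + 2 * k) + 3)) (E φ (ll (cls φ k).1))) := by
    intro k hk
    have h := hsat (gg φ + 2 * k) (by unfold mm; omega)
    have e1 : ¬ gg φ + 2 * k < gg φ := by omega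
    have e2 : (gg φ + 2 * k - gg φ) % 2 = 0 := by omega
    have e3 : (gg φ + 2 * k - gg φ) / 2 = k := by omega
    simpa only [hub, if_neg e1, if_pos e2, e3, if_true, if_false, one_ne_zero, OfNat.ofNat_ne_zero,
      OfNat.ofNat_ne_one] using h
  have hc2 : ∀ k < φ.length,
      (π (E φ (ll (cls φ k).2.1)) (E φ (4 * (gg φ + 2 * k) + 2)) ∧
        π (E φ (ll (cls φ k).2.2)) (E φ (4 * (gg φ + 2 * k + 1) + 3))) ∨
      (π (E φ (4 * (gg φ + 2 * k) + 2)) (E φ (ll (cls φ k).2.2)) ∧
        π (E φ (4 * (gg φ + 2 * k + 1) + 3)) (E φ (ll (cls φ k).2.1))) := by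
    intro k hk
    have h := hsat (gg φ + 2 * k + 1) (by unfold mm; omega)
    have e1 : ¬ gg φ + 2 * k + 1 < gg φ := by omega
    have e2 : ¬ (gg φ + 2 * k + 1 - gg φ) % 2 = 0 := by omega
    have e3 : (gg φ + 2 * k + 1 - gg φ) / 2 = k := by omega
    have e4 : 4 * (gg φ + 2 * k + 1) - 2 = 4 * (gg φ + 2 * k) + 2 := by omega
    have e5 : ¬ (3 : ℕ) = 2 := by norm_num
    simpa only [hub, if_neg e1, if_neg e2, e3, e4, if_true, if_false, one_ne_zero,
      OfNat.ofNat_ne_zero, OfNat.ofNat_ne_one, if_neg e5] using h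
  -- true and false are different
  have hTF : ¬ π (E φ 0) (E φ 2) := by
    intro hTF
    have hv' : ∀ v < gg φ, π (E φ 0) (E φ (4 * v + 1)) ∧ π (E φ 0) (E φ (4 * v + 3)) := by
      intro v hv
      rcases hvar v hv with ⟨a1, a2⟩ | ⟨a1, a2⟩
      · exact ⟨a1, π.trans' hTF a2⟩
      · exact ⟨π.trans' hTF (π.symm' a1), π.symm' a2⟩
    have hl' : ∀ l : Lit ℕ, l.2 < gg φ → π (E φ 0) (E φ (ll l)) := by
      intro l hl
      unfold ll
      split_ifs
      · exact (hv' _ hl).1
      · exact (hv' _ hl).2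
    have hw : ∀ k < φ.length, π (E φ 0) (E φ (4 * (gg φ + 2 * k) + 2)) := by
      intro k hk
      obtain ⟨b1, b2, b3⟩ := hs _ (cls_mem hk)
      rcases hc2 k hk with ⟨a1, a2⟩ | ⟨a1, a2⟩
      · exact π.trans' (hl' _ b2) a1
      · exact π.trans' (hl' _ b3) (π.symm' a1)
    have hall : ∀ h, IsHub φ h → π (E φ 0) (E φ h) := by
      intro h hh
      have hmm : mm φ = gg φ + 2 * φ.length := rfl
      rcases hh with rfl | rfl | ⟨g1, g2 | g2⟩ | ⟨g1, g2, g3, g4 | g4⟩ | ⟨g1, g2, g3, g4⟩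
      · exact π.refl' _
      · exact hTF
      · have := (hv' _ g1).1
        have e : 4 * (h / 4) + 1 = h := by omega
        rwa [e] at this
      · have := (hv' _ g1).2
        have e : 4 * (h / 4) + 3 = h := by omega
        rwa [e] at this
      · have := hw ((h / 4 - gg φ) / 2) (by omega)
        have e : 4 * (gg φ + 2 * ((h / 4 - gg φ) / 2)) + 2 = h := by omega
        rwa [e] at this
      · have hk : (h / 4 - gg φ) / 2 < φ.length := by omega
        obtain ⟨b1, b2, b3⟩ := hs _ (cls_mem hk)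
        have hw' := hw _ hk
        have := hc1 _ hk
        have e : 4 * (gg φ + 2 * ((h / 4 - gg φ) / 2)) + 3 = h := by omega
        rw [e] at this
        rcases this with ⟨a1, a2⟩ | ⟨a1, a2⟩
        · exact π.trans' hw' a2
        · exact π.trans' (hl' _ b1) (π.symm' a2)
      · have hk : (h / 4 - gg φ) / 2 < φ.length := by omega
        obtain ⟨b1, b2, b3⟩ := hs _ (cls_mem hk)
        have := hc2 _ hk
        have e : 4 * (gg φ + 2 * ((h / 4 - gg φ) / 2) + 1) + 3 = h := by omega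
        rw [e] at this
        rcases this with ⟨a1, a2⟩ | ⟨a1, a2⟩
        · exact π.trans' (hl' _ b3) a2
        · exact π.trans' (hl' _ b2) (π.symm' a2)
    have hone : c π ≤ 1 := c_le_one (E φ 0) (fun u => by
      have h1 := hR (rel_L hs u.2)
      rw [E_val] at h1
      exact π.trans' (hall _ (isHub_L hs u)) (π.symm' h1))
    omega
  -- the assignment
  have hτ' : ∀ v < gg φ, τ v = true ↔ π (E φ 0) (E φ (4 * v + 1)) := by
    intro v hv
    have hv' := lt_of_lt_of_le hv (gg_le_mm φ)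
    have hh0 : hub φ v 0 = 0 := by simp [hub, hv]
    have hh1 : hub φ v 1 = 4 * v + 1 := by simp [hub, hv]
    have hh2 : hub φ v 2 = 2 := by simp [hub, hv]
    rw [hτ v hv]
    constructor
    · rintro ⟨t, ht, h⟩
      have r0 := hR (rel_corner hs hv' ht (r := 0) (by norm_num))
      have r1 := hR (rel_corner hs hv' ht (r := 1) (by norm_num))
      rw [Nat.add_zero, hh0] at r0
      rw [hh1] at r1
      exact π.trans' (π.symm' r0) (π.trans' (hYπ h) r1)
    · intro h
      obtain ⟨t, ht, h'⟩ := hgood v hv'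
      refine ⟨t, ht, ?_⟩
      rcases h' with ⟨a1, _⟩ | ⟨a1, _⟩
      · exact a1
      · exfalso
        have r1 := hR (rel_corner hs hv' ht (r := 1) (by norm_num))
        have r2 := hR (rel_corner hs hv' ht (r := 2) (by norm_num))
        rw [hh1] at r1
        rw [hh2] at r2
        exact hTF (π.trans' h (π.trans' (π.symm' r1) (π.trans' (hYπ a1) r2)))
  have hlit : ∀ l : Lit ℕ, l.2 < gg φ → π (E φ 0) (E φ (ll l)) → τ l.2 = l.1 := by
    rintro ⟨s, v⟩ hl h
    cases s with
    | true =>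
      have h' : π (E φ 0) (E φ (4 * v + 1)) := h
      exact (hτ' v hl).2 h'
    | false =>
      have h' : π (E φ 0) (E φ (4 * v + 3)) := h
      change τ v = false
      by_contra hcon
      rw [Bool.not_eq_false] at hcon
      have h1 := (hτ' v hl).1 hcon
      rcases hvar v hl with ⟨a1, a2⟩ | ⟨a1, a2⟩
      · exact hTF (π.trans' h' (π.symm' a2))
      · exact hTF (π.trans' h1 a1)
  intro d hd
  obtain ⟨k, hk, rfl⟩ := List.getElem_of_mem hd
  have hcls : cls φ k = φ[k] := by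
    unfold cls
    rw [List.getD_eq_getElem _ _ hk]
  obtain ⟨b1, b2, b3⟩ := hs _ (cls_mem hk)
  rw [← hcls]
  rcases hc1 k hk with ⟨a1, a2⟩ | ⟨a1, a2⟩
  · exact Or.inl (hlit _ b1 (π.symm' a1))
  · rcases hc2 k hk with ⟨e1, e2⟩ | ⟨e1, e2⟩
    · exact Or.inr (Or.inl (hlit _ b2 (π.trans' a1 (π.symm' e1))))
    · exact Or.inr (Or.inr (hlit _ b3 (π.trans' a1 e1)))

end Pool.Agent.Y410.PM
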