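import Pool.Agent.Y410.PM.Three
import Pool.Agent.H619R2.PM.Final

/-!
# The instance with three partitions: lower bound
-/

namespace Pool.Agent.Y410.PM3

open Module Pool.Agent.NPC Pool.Agent.H619R2.PM

/-- number of constraints -/
def mm (φ : F3) : ℕ := 4 * gg φ + 2 * φ.length

/-- number of groups: every constraint is repeated `12 m` times -/
def ng (φ : F3) : ℕ := 12 * mm φ * mm φ

/-- label of a literal -/
def ll (l : Lit ℕ) : ℕ := if l.1 = true then 24 * l.2 + 1 else 24 * l.2 + 7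

/-- the `k`-th clause -/
def cls (φ : F3) (k : ℕ) : Lit ℕ × Lit ℕ × Lit ℕ := φ.getD k ((false, 0), (false, 0), (false, 0))

/-- the label of the corner `r` of the constraint `i` -/
def hub (φ : F3) (i r : ℕ) : ℕ :=
  if i < 4 * gg φ then
    (if i % 4 < 2 then (if r = 1 then 6 * i + 1 else r)
      else if r = 1 then 2 * (i % 4 - 2) else if r = 0 then 24 * (i / 4) + 1
      else 24 * (i / 4) + 7)
  else if (i - 4 * gg φ) % 2 = 0 then
    (if r = 0 then ll (cls φ ((i - 4 * gg φ) / 2)).1 else if r = 1 then 0 else 6 * i + 2)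
  else (if r = 0 then ll (cls φ ((i - 4 * gg φ) / 2)).2.1 else if r = 1 then 6 * i - 4
    else ll (cls φ ((i - 4 * gg φ) / 2)).2.2)

/-- the labels of the third partition -/
def L (φ : F3) (u : ℕ) : ℕ := if u % 6 < 3 then hub φ ((u / 6) % mm φ) (u % 6) else u

/-- the labels of the first partition, with the classes `034`, `15`, `2` -/
def la (u : ℕ) : ℕ := if u % 6 = 3 then u - 3 else if u % 6 = 4 then u - 4 else
  if u % 6 = 5 then u - 4 else u

/-- the labels of the second partition, with the classes `0`, `13`, `245` -/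
def lb (u : ℕ) : ℕ := if u % 6 = 3 then u - 2 else if u % 6 = 4 then u - 2 else
  if u % 6 = 5 then u - 3 else u

/-- the third partition -/
def X (φ : F3) : List ℕ := (List.range (6 * ng φ)).map (L φ)

/-- the three partitions -/
def inst3 (φ : F3) : List (List ℕ) :=
  [(List.range (6 * ng φ)).map la, (List.range (6 * ng φ)).map lb, X φ]

/-- the number of classes of a partition given by labels -/
def cnt (n : ℕ) (L : ℕ → ℕ) : ℕ := ((List.range n).filter (fun u => decide (L u = u))).length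

/-- the sum of the numbers of classes -/
def C3 (φ : F3) : ℕ := cnt (6 * ng φ) la + (cnt (6 * ng φ) lb + cnt (6 * ng φ) (L φ))

/-- the threshold -/
def thr3 (φ : F3) : ℕ := C3 φ - (ng φ + 4)

theorem gg_pos (φ : F3) : 0 < gg φ := by
  unfold gg
  omega

theorem gg_le_mm (φ : F3) : 4 * gg φ ≤ mm φ := by
  unfold mm
  omega

theorem mm_pos (φ : F3) : 0 < mm φ := lt_of_lt_of_le (by have := gg_pos φ; omega) (gg_le_mm φ)

theorem mm_le_ng (φ : F3) : 12 * mm φ ≤ ng φ := by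
  unfold ng
  have := mm_pos φ
  nlinarith

theorem ng_pos (φ : F3) : 0 < 6 * ng φ := by
  have := mm_pos φ
  have := mm_le_ng φ
  omega

theorem ll_div (l : Lit ℕ) : ll l / 6 = 4 * l.2 ∨ ll l / 6 = 4 * l.2 + 1 := by
  unfold ll
  split_ifs <;> omega

theorem ll_mod (l : Lit ℕ) : ll l % 6 = 1 := by
  unfold ll
  split_ifs <;> omega

theorem cls_mem {φ : F3} {k : ℕ} (hk : k < φ.length) : cls φ k ∈ φ := by
  unfold cls
  rw [List.getD_eq_getElem _ _ hk]
  exact List.getElem_mem hk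

/-- the numbers which are labels -/
def IsHub (φ : F3) (h : ℕ) : Prop :=
  h = 0 ∨ h = 2 ∨ (h / 6 < 4 * gg φ ∧ h / 6 % 4 < 2 ∧ h % 6 = 1) ∨
    (4 * gg φ ≤ h / 6 ∧ h / 6 < mm φ ∧ (h / 6 - 4 * gg φ) % 2 = 0 ∧ h % 6 = 2)

theorem isHub_ll {φ : F3} {l : Lit ℕ} (h : l.2 < gg φ) : IsHub φ (ll l) := by
  refine Or.inr (Or.inr (Or.inl ⟨?_, ?_, ll_mod l⟩))
  · rcases ll_div l with e | e <;> omega
  · rcases ll_div l with e | e <;> omega

theorem isHub_hub {φ : F3} (hs : Small φ) {i r : ℕ} (hi : i < mm φ) (hr : r < 3) :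
    IsHub φ (hub φ i r) := by
  have hmm : mm φ = 4 * gg φ + 2 * φ.length := rfl
  unfold hub
  split_ifs with h1 h2 h3 h3 h4 h5 h6 h7 h8 h9
  · exact Or.inr (Or.inr (Or.inl ⟨by omega, by omega, by omega⟩))
  · rcases (by omega : r = 0 ∨ r = 2) with rfl | rfl
    · exact Or.inl rfl
    · exact Or.inr (Or.inl rfl)
  · rcases (by omega : i % 4 - 2 = 0 ∨ i % 4 - 2 = 1) with e | e <;> rw [e]
    · exact Or.inl rfl
    · exact Or.inr (Or.inl rfl)
  · exact Or.inr (Or.inr (Or.inl ⟨by omega, by omega, by omega⟩))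
  · exact Or.inr (Or.inr (Or.inl ⟨by omega, by omega, by omega⟩))
  · exact isHub_ll (hs _ (cls_mem (by omega))).1
  · exact Or.inl rfl
  · exact Or.inr (Or.inr (Or.inr ⟨by omega, by omega, by omega, by omega⟩))
  · exact isHub_ll (hs _ (cls_mem (by omega))).2.1
  · exact Or.inr (Or.inr (Or.inr ⟨by omega, by omega, by omega, by omega⟩))
  · exact isHub_ll (hs _ (cls_mem (by omega))).2.2

theorem IsHub.lt {φ : F3} {h : ℕ} (hh : IsHub φ h) : h < 6 * mm φ := by
  have := gg_pos φ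
  have := gg_le_mm φ
  rcases hh with rfl | rfl | ⟨h1, h2⟩ | ⟨h1, h2, h3, h4⟩ <;> omega

theorem IsHub.mod {φ : F3} {h : ℕ} (hh : IsHub φ h) : h % 6 < 3 := by
  rcases hh with rfl | rfl | ⟨h1, h2⟩ | ⟨h1, h2, h3, h4⟩ <;> omega

theorem IsHub.L_eq {φ : F3} {h : ℕ} (hh : IsHub φ h) : L φ h = h := by
  have g0 := gg_pos φ
  have g1 := gg_le_mm φ
  have hlt := hh.lt
  have hd : h / 6 < mm φ := by omega
  unfold L
  rw [if_pos hh.mod, Nat.mod_eq_of_lt hd]
  unfold hub
  rcases hh with rfl | rfl | ⟨h1, h2, h3⟩ | ⟨h1, h2, h3, h4⟩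
  · simp [g0]
  · simp [g0]
  · rw [if_pos h1, if_pos h2, if_pos h3]
    omega
  · rw [if_neg (by omega), if_pos h3, if_neg (by omega), if_neg (by omega)]
    omega

theorem isHub_L {φ : F3} (hs : Small φ) {u : ℕ} (hu : u % 6 < 3) : IsHub φ (L φ u) := by
  unfold L
  rw [if_pos hu]
  exact isHub_hub hs (Nat.mod_lt _ (mm_pos φ)) hu

theorem L_lt {φ : F3} (hs : Small φ) {u : ℕ} (hu : u < 6 * ng φ) : L φ u < 6 * ng φ := by
  by_cases h : u % 6 < 3
  · have h1 := (isHub_L hs h).lt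
    have h2 := mm_le_ng φ
    omega
  · unfold L
    rwa [if_neg h]

theorem L_L {φ : F3} (hs : Small φ) (u : ℕ) : L φ (L φ u) = L φ u := by
  by_cases h : u % 6 < 3
  · exact (isHub_L hs h).L_eq
  · have e : L φ u = u := by
      unfold L
      rw [if_neg h]
    rw [e, e]

theorem la_lt {n u : ℕ} (h : u < n) : la u < n := by
  unfold la
  split_ifs <;> omega

theorem la_la (u : ℕ) : la (la u) = la u := by
  unfold la
  split_ifs <;> omega

theorem lb_lt {n u : ℕ} (h : u < n) : lb u < n := by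
  unfold lb
  split_ifs <;> omega

theorem lb_lb (u : ℕ) : lb (lb u) = lb u := by
  unfold lb
  split_ifs <;> omega

/-! ### Elements -/

/-- the element with a given number -/
def E (φ : F3) (h : ℕ) : Fin (6 * ng φ) := ⟨h % (6 * ng φ), Nat.mod_lt _ (ng_pos φ)⟩

theorem E_val {φ : F3} (u : Fin (6 * ng φ)) : E φ u = u :=
  Fin.ext (Nat.mod_eq_of_lt u.2)

theorem E_eq {φ : F3} {u : ℕ} (hu : u < 6 * ng φ) : E φ u = ⟨u, hu⟩ :=
  Fin.ext (Nat.mod_eq_of_lt hu)

theorem rel_L {φ : F3} (hs : Small φ) {u : ℕ} (hu : u < 6 * ng φ) :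
    part (6 * ng φ) (X φ) (E φ u) (E φ (L φ u)) := by
  unfold X
  rw [part_range]
  change L φ (u % (6 * ng φ)) = L φ (L φ u % (6 * ng φ))
  rw [Nat.mod_eq_of_lt hu, Nat.mod_eq_of_lt (L_lt hs hu), L_L hs]

/-- copy `t` of the constraint `i` -/
def cpy (φ : F3) (i t : ℕ) : ℕ := i + t * mm φ

theorem cpy_lt {φ : F3} {i t : ℕ} (hi : i < mm φ) (ht : t < 12 * mm φ) : cpy φ i t < ng φ := by
  unfold cpy ng
  calc i + t * mm φ < mm φ + t * mm φ := by omega
    _ = (t + 1) * mm φ := by ring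
    _ ≤ 12 * mm φ * mm φ := Nat.mul_le_mul_right _ ht

theorem cpy_mod {φ : F3} {i t : ℕ} (hi : i < mm φ) : cpy φ i t % mm φ = i := by
  unfold cpy
  rw [Nat.add_mul_mod_self_right, Nat.mod_eq_of_lt hi]

theorem L_corner {φ : F3} {i t r : ℕ} (hi : i < mm φ) (hr : r < 3) :
    L φ (6 * cpy φ i t + r) = hub φ i r := by
  unfold L
  have h1 : (6 * cpy φ i t + r) / 6 = cpy φ i t := by omega
  have h2 : (6 * cpy φ i t + r) % 6 = r := by omega
  rw [h1, h2, cpy_mod hi, if_pos hr]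

theorem rel_corner {φ : F3} (hs : Small φ) {i t r : ℕ} (hi : i < mm φ) (ht : t < 12 * mm φ)
    (hr : r < 3) : part (6 * ng φ) (X φ) (E φ (6 * cpy φ i t + r)) (E φ (hub φ i r)) := by
  have := rel_L hs (u := 6 * cpy φ i t + r) (by
    have := cpy_lt hi ht
    omega)
  rwa [L_corner hi hr] at this

/-- the elements of the groups -/
def el (φ : F3) (r : Fin 6) (x : Fin (ng φ)) : Fin (6 * ng φ) := ⟨6 * x + r, by omega⟩

theorem el_eq {φ : F3} (r : Fin 6) (x : Fin (ng φ)) : el φ r x = E φ (6 * x + r) :=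
  (E_eq (by omega)).symm

theorem cover (φ : F3) (u : Fin (6 * ng φ)) : ∃ x r, u = el φ r x :=
  ⟨⟨u / 6, by omega⟩, ⟨u % 6, by omega⟩, Fin.ext (by simp only [el]; omega)⟩

theorem la_0 (x : ℕ) : la (6 * x + 0) = 6 * x + 0 := by
  unfold la
  split_ifs <;> omega

theorem la_1 (x : ℕ) : la (6 * x + 1) = 6 * x + 1 := by
  unfold la
  split_ifs <;> omega

theorem la_2 (x : ℕ) : la (6 * x + 2) = 6 * x + 2 := by
  unfold la
  split_ifs <;> omega

theorem la_3 (x : ℕ) : la (6 * x + 3) = 6 * x + 0 := by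
  unfold la
  split_ifs <;> omega

theorem la_4 (x : ℕ) : la (6 * x + 4) = 6 * x + 0 := by
  unfold la
  split_ifs <;> omega

theorem la_5 (x : ℕ) : la (6 * x + 5) = 6 * x + 1 := by
  unfold la
  split_ifs <;> omega

theorem mem_Va {φ : F3} (f : Fin (6 * ng φ) → ℚ) :
    f ∈ V (part (6 * ng φ) ((List.range (6 * ng φ)).map la)) ↔
      ∀ x, f (el φ 3 x) = f (el φ 0 x) ∧ f (el φ 4 x) = f (el φ 0 x) ∧ f (el φ 5 x) = f (el φ 1 x) := by
  rw [mem_V_part (fun u hu => la_lt hu) (fun u _ => la_la u)]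
  constructor
  · intro h x
    have e3 : (⟨la (el φ 3 x), la_lt (el φ 3 x).2⟩ : Fin (6 * ng φ)) = el φ 0 x :=
      Fin.ext (la_3 x)
    have e4 : (⟨la (el φ 4 x), la_lt (el φ 4 x).2⟩ : Fin (6 * ng φ)) = el φ 0 x :=
      Fin.ext (la_4 x)
    have e5 : (⟨la (el φ 5 x), la_lt (el φ 5 x).2⟩ : Fin (6 * ng φ)) = el φ 1 x :=
      Fin.ext (la_5 x)
    exact ⟨(h (el φ 3 x)).trans (congrArg f e3), (h (el φ 4 x)).trans (congrArg f e4),
      (h (el φ 5 x)).trans (congrArg f e5)⟩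
  · intro h u
    obtain ⟨x, r, rfl⟩ := cover φ u
    obtain ⟨h3, h4, h5⟩ := h x
    have key : ∀ s : Fin 6, la (el φ r x) = el φ s x →
        f (el φ r x) = f (el φ s x) → f (el φ r x) = f ⟨la (el φ r x), la_lt (el φ r x).2⟩ := by
      intro s hs hf
      rw [hf]
      exact congrArg f (Fin.ext hs.symm)
    fin_cases r
    · exact key 0 (la_0 x) rfl
    · exact key 1 (la_1 x) rfl
    · exact key 2 (la_2 x) rfl
    · exact key 0 (la_3 x) h3
    · exact key 0 (la_4 x) h4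
    · exact key 1 (la_5 x) h5

theorem lb_0 (x : ℕ) : lb (6 * x + 0) = 6 * x + 0 := by
  unfold lb
  split_ifs <;> omega

theorem lb_1 (x : ℕ) : lb (6 * x + 1) = 6 * x + 1 := by
  unfold lb
  split_ifs <;> omega

theorem lb_2 (x : ℕ) : lb (6 * x + 2) = 6 * x + 2 := by
  unfold lb
  split_ifs <;> omega

theorem lb_3 (x : ℕ) : lb (6 * x + 3) = 6 * x + 1 := by
  unfold lb
  split_ifs <;> omega

theorem lb_4 (x : ℕ) : lb (6 * x + 4) = 6 * x + 2 := by
  unfold lb
  split_ifs <;> omega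

theorem lb_5 (x : ℕ) : lb (6 * x + 5) = 6 * x + 2 := by
  unfold lb
  split_ifs <;> omega

theorem mem_Vb {φ : F3} (f : Fin (6 * ng φ) → ℚ) :
    f ∈ V (part (6 * ng φ) ((List.range (6 * ng φ)).map lb)) ↔
      ∀ x, f (el φ 3 x) = f (el φ 1 x) ∧ f (el φ 4 x) = f (el φ 2 x) ∧ f (el φ 5 x) = f (el φ 2 x) := by
  rw [mem_V_part (fun u hu => lb_lt hu) (fun u _ => lb_lb u)]
  constructor
  · intro h x
    have e3 : (⟨lb (el φ 3 x), lb_lt (el φ 3 x).2⟩ : Fin (6 * ng φ)) = el φ 1 x :=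
      Fin.ext (lb_3 x)
    have e4 : (⟨lb (el φ 4 x), lb_lt (el φ 4 x).2⟩ : Fin (6 * ng φ)) = el φ 2 x :=
      Fin.ext (lb_4 x)
    have e5 : (⟨lb (el φ 5 x), lb_lt (el φ 5 x).2⟩ : Fin (6 * ng φ)) = el φ 2 x :=
      Fin.ext (lb_5 x)
    exact ⟨(h (el φ 3 x)).trans (congrArg f e3), (h (el φ 4 x)).trans (congrArg f e4),
      (h (el φ 5 x)).trans (congrArg f e5)⟩
  · intro h u
    obtain ⟨x, r, rfl⟩ := cover φ u
    obtain ⟨h3, h4, h5⟩ := h x
    have key : ∀ s : Fin 6, lb (el φ r x) = el φ s x →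
        f (el φ r x) = f (el φ s x) → f (el φ r x) = f ⟨lb (el φ r x), lb_lt (el φ r x).2⟩ := by
      intro s hs hf
      rw [hf]
      exact congrArg f (Fin.ext hs.symm)
    fin_cases r
    · exact key 0 (lb_0 x) rfl
    · exact key 1 (lb_1 x) rfl
    · exact key 2 (lb_2 x) rfl
    · exact key 1 (lb_3 x) h3
    · exact key 2 (lb_4 x) h4
    · exact key 2 (lb_5 x) h5

end Pool.Agent.Y410.PM3
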