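import Pool.Agent.Y410.PM.Inst3

/-!
# The instance with three partitions: cheap partitions give satisfying assignments
-/

namespace Pool.Agent.Y410.PM3

open Module Pool.Agent.NPC Pool.Agent.H619R2.PM

theorem c_part {n : ℕ} {L : ℕ → ℕ} (hL : ∀ u < n, L u < n) (hLL : ∀ u < n, L (L u) = L u) :
    c (part n ((List.range n).map L)) = cnt n L := by
  unfold cnt
  rw [c_eq_card]
  have e : Quotient (part n ((List.range n).map L)) ≃
      {u // u ∈ (Finset.range n).filter (fun u => L u = u)} :=
    { toFun := Quotient.lift (fun u => ⟨L u, by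
        simp only [Finset.mem_filter, Finset.mem_range]
        exact ⟨hL u u.2, hLL u u.2⟩⟩) (by
          intro u v h
          have h' : part n ((List.range n).map L) u v := h
          rw [part_range] at h'
          exact Subtype.ext h')
      invFun := fun u => Quotient.mk _ ⟨u.1, (Finset.mem_range.1 (Finset.mem_filter.1 u.2).1)⟩
      left_inv := by
        intro q
        induction q using Quotient.ind with | _ u =>
        apply Quotient.sound
        change part n ((List.range n).map L) _ _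
        rw [part_range]
        exact hLL u u.2
      right_inv := by
        rintro ⟨u, hu⟩
        exact Subtype.ext (Finset.mem_filter.1 hu).2 }
  rw [Nat.card_congr e, Nat.card_eq_fintype_card, Fintype.card_coe]
  rfl

/-- Requiring the vanishing at `K` points lowers the dimension by at most `K`. -/
theorem finrank_le_vanish {α : Type} [Finite α] {K : ℕ} (s : Fin K → α)
    (A B : Submodule ℚ (α → ℚ)) (h : ∀ f ∈ A, (∀ m, f (s m) = 0) → f ∈ B) :
    finrank ℚ A ≤ finrank ℚ B + K := by
  let T : (α → ℚ) →ₗ[ℚ] (Fin K → ℚ) := LinearMap.funLeft ℚ ℚ s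
  have h1 := LinearMap.finrank_range_add_finrank_ker (T.domRestrict A)
  have h2 : finrank ℚ (LinearMap.range (T.domRestrict A)) ≤ finrank ℚ (Fin K → ℚ) :=
    Submodule.finrank_le _
  rw [Module.finrank_fin_fun] at h2
  have h3 : finrank ℚ (LinearMap.ker (T.domRestrict A)) ≤ finrank ℚ B := by
    rw [LinearMap.domRestrict, LinearMap.ker_comp]
    have h4 : Submodule.map A.subtype (Submodule.comap A.subtype (LinearMap.ker T)) =
        A ⊓ LinearMap.ker T := Submodule.map_comap_subtype _ _
    rw [← Submodule.finrank_map_subtype_eq A (Submodule.comap A.subtype (LinearMap.ker T)), h4]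
    refine Submodule.finrank_mono ?_
    intro f hf
    refine h f hf.1 (fun m => ?_)
    have := LinearMap.mem_ker.1 hf.2
    exact congrFun this m
  omega

theorem c_X {φ : F3} (hs : Small φ) : c (part (6 * ng φ) (X φ)) = cnt (6 * ng φ) (L φ) :=
  c_part (fun _ hu => L_lt hs hu) (fun u _ => L_L hs u)

/-! ### The cost -/

theorem cost_inst3 {φ : F3} (hs : Small φ) (Y : Setoid (Fin (6 * ng φ))) :
    cost (6 * ng φ) (inst3 φ) Y +
      2 * c (part _ ((List.range (6 * ng φ)).map la) ⊔ Y) +
      2 * c (part _ ((List.range (6 * ng φ)).map lb) ⊔ Y) +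
      2 * c (part _ (X φ) ⊔ Y) = C3 φ + 3 * c Y := by
  have d1 := dist_eq (part _ ((List.range (6 * ng φ)).map la)) Y
  have d2 := dist_eq (part _ ((List.range (6 * ng φ)).map lb)) Y
  have d3 := dist_eq (part _ (X φ)) Y
  rw [c_X hs] at d3
  rw [c_part (L := la) (fun u hu => la_lt hu) (fun u _ => la_la u)] at d1
  rw [c_part (L := lb) (fun u hu => lb_lt hu) (fun u _ => lb_lb u)] at d2
  have hc : cost (6 * ng φ) (inst3 φ) Y =
      dist (part _ ((List.range (6 * ng φ)).map la)) Y +
        (dist (part _ ((List.range (6 * ng φ)).map lb)) Y + dist (part _ (X φ)) Y) := by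
    unfold cost inst3
    simp only [List.map_cons, List.map_nil, List.sum_cons, List.sum_nil, add_zero]
  rw [hc]
  unfold C3
  omega

/-! ### Cheap partitions give satisfying assignments -/

/-- **Lower bound.** -/
theorem lower3 {φ : F3} (hs : Small φ) (hC : ng φ + 4 ≤ C3 φ) {Y : Setoid (Fin (6 * ng φ))}
    (hY : cost (6 * ng φ) (inst3 φ) Y ≤ thr3 φ) {τ : ℕ → Bool}
    (hτ : ∀ v < gg φ, τ v = true ↔
      ∃ t < 12 * mm φ, Y (E φ (6 * cpy φ (4 * v) t)) (E φ (6 * cpy φ (4 * v) t + 1))) :
    ∀ k ∈ φ, Tr τ k := by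
  have hineq := ineq3 (cover φ) mem_Va mem_Vb Y
  rw [Nat.card_eq_fintype_card (α := Fin (ng φ)), Fintype.card_fin] at hineq
  have hcost := cost_inst3 hs Y
  set π := part _ (X φ) ⊔ Y with hπ
  have hR : ∀ {u v}, part (6 * ng φ) (X φ) u v → π u v := fun h =>
    (le_sup_left : part (6 * ng φ) (X φ) ≤ π) h
  have hYπ : ∀ {u v}, Y u v → π u v := fun h => (le_sup_right : Y ≤ π) h
  have hmp := mm_pos φ
  have hmn := mm_le_ng φ
  have hVπY : V π ≤ V Y := V_anti (le_sup_right : Y ≤ π)
  set i₀ := finrank ℚ (V Y ⊓ Z0 (el φ) : Submodule ℚ (Fin (6 * ng φ) → ℚ)) with hi₀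
  have hbad : Nat.card {x // Bad3 (el φ) Y x} + 4 + 2 * i₀ ≤ 2 * c π := by
    unfold thr3 at hY
    omega
  -- a function constant on the classes of `π` which vanishes at all labels vanishes on terminals
  have hvan : ∀ f ∈ V π, (∀ h, IsHub φ h → f (E φ h) = 0) → f ∈ V Y ⊓ Z0 (el φ) := by
    intro f hf h0
    refine ⟨hVπY hf, mem_Z0.2 (fun x => ?_)⟩
    have key : ∀ r : Fin 6, (r : ℕ) < 3 → f (el φ r x) = 0 := by
      intro r hr
      have hlt : 6 * (x : ℕ) + r < 6 * ng φ := by omega
      rw [el_eq, hf _ _ (hR (rel_L hs hlt))]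
      exact h0 _ (isHub_L hs (by omega))
    exact ⟨key 0 (by decide), key 1 (by decide), key 2 (by decide)⟩
  have hcπ : c π ≤ i₀ + 6 * mm φ := by
    unfold c
    refine finrank_le_vanish (fun m : Fin (6 * mm φ) => E φ m) _ _ (fun f hf h0 => ?_)
    exact hvan f hf (fun h hh => h0 ⟨h, hh.lt⟩)
  -- every constraint has a good copy
  have hgood : ∀ i < mm φ, ∃ t < 12 * mm φ,
      (Y (E φ (6 * cpy φ i t)) (E φ (6 * cpy φ i t + 1))) ∨
      (Y (E φ (6 * cpy φ i t + 1)) (E φ (6 * cpy φ i t + 2))) := by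
    intro i hi
    by_contra hcon
    push Not at hcon
    have hb : ∀ t : Fin (12 * mm φ), Bad3 (el φ) Y ⟨cpy φ i t, cpy_lt hi t.2⟩ := by
      intro t
      obtain ⟨k1, k2⟩ := hcon t t.2
      unfold Bad3
      rw [el_eq, el_eq, el_eq]
      exact ⟨k1, k2⟩
    have hinj : Function.Injective (fun t : Fin (12 * mm φ) =>
        (⟨⟨cpy φ i t, cpy_lt hi t.2⟩, hb t⟩ : {x // Bad3 (el φ) Y x})) := by
      intro s t hst
      have : cpy φ i s = cpy φ i t := congrArg (fun q => (q.1 : ℕ)) hst
      unfold cpy at this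
      have := Nat.eq_of_mul_eq_mul_right hmp (Nat.add_left_cancel this)
      exact Fin.ext this
    have := Nat.card_le_card_of_injective _ hinj
    rw [Nat.card_eq_fintype_card, Fintype.card_fin] at this
    omega
  have hsat : ∀ i < mm φ,
      (π (E φ (hub φ i 0)) (E φ (hub φ i 1))) ∨ (π (E φ (hub φ i 1)) (E φ (hub φ i 2))) := by
    intro i hi
    obtain ⟨t, ht, h⟩ := hgood i hi
    have r0 := hR (rel_corner hs hi ht (r := 0) (by norm_num))
    have r1 := hR (rel_corner hs hi ht (r := 1) (by norm_num))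
    have r2 := hR (rel_corner hs hi ht (r := 2) (by norm_num))
    rw [Nat.add_zero] at r0
    rcases h with a1 | a1
    · exact Or.inl (π.trans' (π.symm' r0) (π.trans' (hYπ a1) r1))
    · exact Or.inr (π.trans' (π.symm' r1) (π.trans' (hYπ a1) r2))
  have hgm := gg_le_mm φ
  -- variable constraints
  have hv0 : ∀ v < gg φ, π (E φ 0) (E φ (24 * v + 1)) ∨ π (E φ (24 * v + 1)) (E φ 2) := by
    intro v hv
    have h := hsat (4 * v) (by omega)
    have e1 : 4 * v < 4 * gg φ := by omega
    have e2 : 4 * v % 4 < 2 := by omega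
    have e3 : 6 * (4 * v) + 1 = 24 * v + 1 := by ring
    simpa only [hub, if_pos e1, if_pos e2, e3, if_true, if_false, zero_ne_one,
      OfNat.ofNat_ne_one] using h
  have hv1 : ∀ v < gg φ, π (E φ 0) (E φ (24 * v + 7)) ∨ π (E φ (24 * v + 7)) (E φ 2) := by
    intro v hv
    have h := hsat (4 * v + 1) (by omega)
    have e1 : 4 * v + 1 < 4 * gg φ := by omega
    have e2 : (4 * v + 1) % 4 < 2 := by omega
    have e3 : 6 * (4 * v + 1) + 1 = 24 * v + 7 := by ring
    simpa only [hub, if_pos e1, if_pos e2, e3, if_true, if_false, zero_ne_one,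
      OfNat.ofNat_ne_one] using h
  have hv3 : ∀ v < gg φ, π (E φ (24 * v + 1)) (E φ 2) ∨ π (E φ 2) (E φ (24 * v + 7)) := by
    intro v hv
    have h := hsat (4 * v + 3) (by omega)
    have e1 : 4 * v + 3 < 4 * gg φ := by omega
    have e2 : ¬ (4 * v + 3) % 4 < 2 := by omega
    have e3 : 2 * ((4 * v + 3) % 4 - 2) = 2 := by omega
    have e4 : (4 * v + 3) / 4 = v := by omega
    have e5 : ¬ (2 : ℕ) = 1 := by norm_num
    have e6 : ¬ (2 : ℕ) = 0 := by norm_num
    simpa only [hub, if_pos e1, if_neg e2, e3, e4, if_true, if_false, zero_ne_one, one_ne_zero,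
      if_neg e5, if_neg e6] using h
  -- clause constraints
  have hc1 : ∀ k < φ.length, π (E φ (ll (cls φ k).1)) (E φ 0) ∨
      π (E φ 0) (E φ (6 * (4 * gg φ + 2 * k) + 2)) := by
    intro k hk
    have h := hsat (4 * gg φ + 2 * k) (by unfold mm; omega)
    have e1 : ¬ 4 * gg φ + 2 * k < 4 * gg φ := by omega
    have e2 : (4 * gg φ + 2 * k - 4 * gg φ) % 2 = 0 := by omega
    have e3 : (4 * gg φ + 2 * k - 4 * gg φ) / 2 = k := by omega
    simpa only [hub, if_neg e1, if_pos e2, e3, if_true, if_false, one_ne_zero, OfNat.ofNat_ne_zero,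
      OfNat.ofNat_ne_one] using h
  have hc2 : ∀ k < φ.length,
      π (E φ (ll (cls φ k).2.1)) (E φ (6 * (4 * gg φ + 2 * k) + 2)) ∨
      π (E φ (6 * (4 * gg φ + 2 * k) + 2)) (E φ (ll (cls φ k).2.2)) := by
    intro k hk
    have h := hsat (4 * gg φ + 2 * k + 1) (by unfold mm; omega)
    have e1 : ¬ 4 * gg φ + 2 * k + 1 < 4 * gg φ := by omega
    have e2 : ¬ (4 * gg φ + 2 * k + 1 - 4 * gg φ) % 2 = 0 := by omega
    have e3 : (4 * gg φ + 2 * k + 1 - 4 * gg φ) / 2 = k := by omega
    have e4 : 6 * (4 * gg φ + 2 * k + 1) - 4 = 6 * (4 * gg φ + 2 * k) + 2 := by omega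
    simpa only [hub, if_neg e1, if_neg e2, e3, e4, if_true, if_false, one_ne_zero,
      OfNat.ofNat_ne_zero, OfNat.ofNat_ne_one] using h
  -- true and false are different
  have hTF : ¬ π (E φ 0) (E φ 2) := by
    intro hTF
    have hv' : ∀ v < gg φ, π (E φ 0) (E φ (24 * v + 1)) ∧ π (E φ 0) (E φ (24 * v + 7)) := by
      intro v hv
      constructor
      · rcases hv0 v hv with a | a
        · exact a
        · exact π.trans' hTF (π.symm' a)
      · rcases hv1 v hv with a | a
        · exact a
        · exact π.trans' hTF (π.symm' a)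
    have hl' : ∀ l : Lit ℕ, l.2 < gg φ → π (E φ 0) (E φ (ll l)) := by
      intro l hl
      unfold ll
      split_ifs
      · exact (hv' _ hl).1
      · exact (hv' _ hl).2
    have hall : ∀ h, IsHub φ h → π (E φ 0) (E φ h) := by
      intro h hh
      have hmm : mm φ = 4 * gg φ + 2 * φ.length := rfl
      rcases hh with rfl | rfl | ⟨g1, g2, g3⟩ | ⟨g1, g2, g3, g4⟩
      · exact π.refl' _
      · exact hTF
      · rcases (by omega : h = 24 * (h / 24) + 1 ∨ h = 24 * (h / 24) + 7) with e | e
        · rw [e]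
          exact (hv' (h / 24) (by omega)).1
        · rw [e]
          exact (hv' (h / 24) (by omega)).2
      · have hk : (h / 6 - 4 * gg φ) / 2 < φ.length := by omega
        have e : 6 * (4 * gg φ + 2 * ((h / 6 - 4 * gg φ) / 2)) + 2 = h := by omega
        obtain ⟨b1, b2, b3⟩ := hs _ (cls_mem hk)
        have hk2 := hc2 _ hk
        rw [e] at hk2
        rcases hk2 with a | a
        · exact π.trans' (hl' _ b2) a
        · exact π.trans' (hl' _ b3) (π.symm' a)
    have hone : c π ≤ i₀ + 1 := by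
      unfold c
      refine finrank_le_vanish (fun _ : Fin 1 => E φ 0) _ _ (fun f hf h0 => ?_)
      refine hvan f hf (fun h hh => ?_)
      rw [← hf _ _ (hall h hh)]
      exact h0 0
    omega
  -- the assignment
  have hτ' : ∀ v < gg φ, τ v = true ↔ π (E φ 0) (E φ (24 * v + 1)) := by
    intro v hv
    have hv' : 4 * v < mm φ := by omega
    have e1 : 4 * v < 4 * gg φ := by omega
    have e2 : 4 * v % 4 < 2 := by omega
    have e3 : 6 * (4 * v) + 1 = 24 * v + 1 := by ring
    have hh0 : hub φ (4 * v) 0 = 0 := by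
      simp only [hub, if_pos e1, if_pos e2, zero_ne_one, if_false]
    have hh1 : hub φ (4 * v) 1 = 24 * v + 1 := by
      simp only [hub, if_pos e1, if_pos e2, if_true, e3]
    have hh2 : hub φ (4 * v) 2 = 2 := by
      simp only [hub, if_pos e1, if_pos e2, OfNat.ofNat_ne_one, if_false]
    rw [hτ v hv]
    constructor
    · rintro ⟨t, ht, h⟩
      have r0 := hR (rel_corner hs hv' ht (r := 0) (by norm_num))
      have r1 := hR (rel_corner hs hv' ht (r := 1) (by norm_num))
      rw [Nat.add_zero, hh0] at r0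
      rw [hh1] at r1
      exact π.trans' (π.symm' r0) (π.trans' (hYπ h) r1)
    · intro h
      obtain ⟨t, ht, h'⟩ := hgood (4 * v) hv'
      refine ⟨t, ht, ?_⟩
      rcases h' with a1 | a1
      · exact a1
      · exfalso
        have r1 := hR (rel_corner hs hv' ht (r := 1) (by norm_num))
        have r2 := hR (rel_corner hs hv' ht (r := 2) (by norm_num))
        rw [hh1] at r1
        rw [hh2] at r2
        exact hTF (π.trans' h (π.trans' (π.symm' r1) (π.trans' (hYπ a1) r2)))
  have hlit : ∀ l : Lit ℕ, l.2 < gg φ → π (E φ 0) (E φ (ll l)) → τ l.2 = l.1 := by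
    rintro ⟨s, v⟩ hl h
    cases s with
    | true =>
      have h' : π (E φ 0) (E φ (24 * v + 1)) := h
      exact (hτ' v hl).2 h'
    | false =>
      have h' : π (E φ 0) (E φ (24 * v + 7)) := h
      change τ v = false
      by_contra hcon
      rw [Bool.not_eq_false] at hcon
      have h1 := (hτ' v hl).1 hcon
      rcases hv3 v hl with a | a
      · exact hTF (π.trans' h1 a)
      · exact hTF (π.trans' h' (π.symm' a))
  intro d hd
  obtain ⟨k, hk, rfl⟩ := List.getElem_of_mem hd
  have hcls : cls φ k = φ[k] := by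
    unfold cls
    rw [List.getD_eq_getElem _ _ hk]
  obtain ⟨b1, b2, b3⟩ := hs _ (cls_mem hk)
  rw [← hcls]
  rcases hc1 k hk with a1 | a1
  · exact Or.inl (hlit _ b1 (π.symm' a1))
  · rcases hc2 k hk with e1 | e1
    · exact Or.inr (Or.inl (hlit _ b2 (π.trans' a1 (π.symm' e1))))
    · exact Or.inr (Or.inr (hlit _ b3 (π.trans' a1 e1)))

end Pool.Agent.Y410.PM3
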