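import Pool.Agent.Y410.PM.Inst

/-!
# A satisfying assignment gives a cheap partition; the reduction is polynomial
-/

namespace Pool.Agent.Y410.PM

open Module Pool.Agent.NPC Pool.Agent.H619R2.PM

/-- the truth value of a literal -/
def tv (τ : ℕ → Bool) (l : Lit ℕ) : Bool := decide (τ l.2 = l.1)

/-- The side (true or false) of a label. -/
def chi (φ : F3) (τ : ℕ → Bool) (h : ℕ) : Bool :=
  if h / 4 < gg φ then
    (if h % 4 = 0 then true else if h % 4 = 1 then τ (h / 4) else if h % 4 = 2 then false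
      else !(τ (h / 4)))
  else if (h / 4 - gg φ) % 2 = 0 then
    (if h % 4 = 2 then
        (tv τ (cls φ ((h / 4 - gg φ) / 2)).2.1 || tv τ (cls φ ((h / 4 - gg φ) / 2)).2.2)
      else (tv τ (cls φ ((h / 4 - gg φ) / 2)).1 &&
        (tv τ (cls φ ((h / 4 - gg φ) / 2)).2.1 || tv τ (cls φ ((h / 4 - gg φ) / 2)).2.2)))
  else (tv τ (cls φ ((h / 4 - gg φ) / 2)).2.1 && tv τ (cls φ ((h / 4 - gg φ) / 2)).2.2)

theorem chi_ll {φ : F3} (τ : ℕ → Bool) {l : Lit ℕ} (h : l.2 < gg φ) : chi φ τ (ll l) = tv τ l := by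
  obtain ⟨s, v⟩ := l
  have h' : v < gg φ := h
  unfold chi
  rw [ll_div, if_pos h]
  unfold tv ll
  cases s with
  | true =>
    have e1 : (4 * v + 1) % 4 = 1 := by omega
    simp [e1]
  | false =>
    have e1 : (4 * v + 3) % 4 = 3 := by omega
    simp [e1]

/-- All constraints are satisfied by the two sides. -/
theorem chi_sat {φ : F3} (hs : Small φ) {τ : ℕ → Bool} (hτ : ∀ k ∈ φ, Tr τ k) {i : ℕ}
    (hi : i < mm φ) :
    (chi φ τ (hub φ i 0) = chi φ τ (hub φ i 1) ∧ chi φ τ (hub φ i 2) = chi φ τ (hub φ i 3)) ∨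
    (chi φ τ (hub φ i 1) = chi φ τ (hub φ i 2) ∧ chi φ τ (hub φ i 3) = chi φ τ (hub φ i 0)) := by
  have g0 := gg_pos φ
  have hmm : mm φ = gg φ + 2 * φ.length := rfl
  have c0 : chi φ τ 0 = true := by simp [chi, g0]
  have c2 : chi φ τ 2 = false := by simp [chi, g0]
  by_cases h1 : i < gg φ
  · have e1 : (4 * i + 1) / 4 = i := by omega
    have e2 : (4 * i + 1) % 4 = 1 := by omega
    have e3 : (4 * i + 3) / 4 = i := by omega
    have e4 : (4 * i + 3) % 4 = 3 := by omega
    have d1 : chi φ τ (4 * i + 1) = τ i := by simp [chi, e1, e2, h1]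
    have d3 : chi φ τ (4 * i + 3) = !(τ i) := by simp [chi, e3, e4, h1]
    have k0 : hub φ i 0 = 0 := by simp [hub, h1]
    have k1 : hub φ i 1 = 4 * i + 1 := by simp [hub, h1]
    have k2 : hub φ i 2 = 2 := by simp [hub, h1]
    have k3 : hub φ i 3 = 4 * i + 3 := by simp [hub, h1]
    rw [k0, k1, k2, k3, c0, c2, d1, d3]
    cases τ i <;> simp
  · have hk : (i - gg φ) / 2 < φ.length := by omega
    obtain ⟨b1, b2, b3⟩ := hs _ (cls_mem hk)
    have ht := hτ _ (cls_mem hk)
    have ht' : tv τ (cls φ ((i - gg φ) / 2)).1 = true ∨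
        tv τ (cls φ ((i - gg φ) / 2)).2.1 = true ∨
        tv τ (cls φ ((i - gg φ) / 2)).2.2 = true := by
      unfold tv
      simp only [decide_eq_true_eq]
      exact ht
    by_cases h2 : (i - gg φ) % 2 = 0
    · have e1 : (4 * i + 2) / 4 = i := by omega
      have e2 : (4 * i + 2) % 4 = 2 := by omega
      have e3 : (4 * i + 3) / 4 = i := by omega
      have e4 : (4 * i + 3) % 4 = 3 := by omega
      have d1 : chi φ τ (4 * i + 2) =
          (tv τ (cls φ ((i - gg φ) / 2)).2.1 || tv τ (cls φ ((i - gg φ) / 2)).2.2) := by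
        unfold chi
        rw [e1, e2, if_neg h1, if_pos h2, if_pos rfl]
      have d3 : chi φ τ (4 * i + 3) = (tv τ (cls φ ((i - gg φ) / 2)).1 &&
          (tv τ (cls φ ((i - gg φ) / 2)).2.1 || tv τ (cls φ ((i - gg φ) / 2)).2.2)) := by
        unfold chi
        rw [e3, e4, if_neg h1, if_pos h2, if_neg (by norm_num)]
      have k0 : hub φ i 0 = ll (cls φ ((i - gg φ) / 2)).1 := by simp [hub, h1, h2]
      have k1 : hub φ i 1 = 0 := by simp [hub, h1, h2]
      have k2 : hub φ i 2 = 4 * i + 2 := by simp [hub, h1, h2]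
      have k3 : hub φ i 3 = 4 * i + 3 := by simp [hub, h1, h2]
      rw [k0, k1, k2, k3, c0, chi_ll τ b1, d1, d3]
      generalize tv τ (cls φ ((i - gg φ) / 2)).1 = x at *
      generalize tv τ (cls φ ((i - gg φ) / 2)).2.1 = y at *
      generalize tv τ (cls φ ((i - gg φ) / 2)).2.2 = z at *
      revert ht'
      cases x <;> cases y <;> cases z <;> simp
    · have e1 : (4 * i - 2) / 4 = i - 1 := by omega
      have e2 : (4 * i - 2) % 4 = 2 := by omega
      have e3 : (4 * i + 3) / 4 = i := by omega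
      have e5 : ¬ i - 1 < gg φ := by omega
      have e6 : (i - 1 - gg φ) % 2 = 0 := by omega
      have e7 : (i - 1 - gg φ) / 2 = (i - gg φ) / 2 := by omega
      have d1 : chi φ τ (4 * i - 2) =
          (tv τ (cls φ ((i - gg φ) / 2)).2.1 || tv τ (cls φ ((i - gg φ) / 2)).2.2) := by
        unfold chi
        rw [e1, e2, if_neg e5, if_pos e6, if_pos rfl, e7]
      have d3 : chi φ τ (4 * i + 3) =
          (tv τ (cls φ ((i - gg φ) / 2)).2.1 && tv τ (cls φ ((i - gg φ) / 2)).2.2) := by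
        unfold chi
        rw [e3, if_neg h1, if_neg h2]
      have k0 : hub φ i 0 = ll (cls φ ((i - gg φ) / 2)).2.1 := by simp [hub, h1, h2]
      have k1 : hub φ i 1 = 4 * i - 2 := by simp [hub, h1, h2]
      have k2 : hub φ i 2 = ll (cls φ ((i - gg φ) / 2)).2.2 := by simp [hub, h1, h2]
      have k3 : hub φ i 3 = 4 * i + 3 := by simp [hub, h1, h2]
      rw [k0, k1, k2, k3, chi_ll τ b2, chi_ll τ b3, d1, d3]
      generalize tv τ (cls φ ((i - gg φ) / 2)).2.1 = y
      generalize tv τ (cls φ ((i - gg φ) / 2)).2.2 = z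
      cases y <;> cases z <;> simp

/-- the state of a group -/
def st (φ : F3) (τ : ℕ → Bool) (j : ℕ) : Bool :=
  decide (chi φ τ (L φ (4 * j)) = chi φ τ (L φ (4 * j + 1)) ∧
    chi φ τ (L φ (4 * j + 2)) = chi φ τ (L φ (4 * j + 3)))

theorem L_group (φ : F3) (j r : ℕ) (hr : r < 4) : L φ (4 * j + r) = hub φ (j % mm φ) r := by
  unfold L
  have h1 : (4 * j + r) / 4 = j := by omega
  have h2 : (4 * j + r) % 4 = r := by omega
  rw [h1, h2]

theorem st_false {φ : F3} (hs : Small φ) {τ : ℕ → Bool} (hτ : ∀ k ∈ φ, Tr τ k) {j : ℕ}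
    (hj : st φ τ j = false) : chi φ τ (L φ (4 * j + 1)) = chi φ τ (L φ (4 * j + 2)) ∧
      chi φ τ (L φ (4 * j + 3)) = chi φ τ (L φ (4 * j)) := by
  have h := chi_sat hs hτ (Nat.mod_lt j (mm_pos φ))
  rw [← L_group φ j 0 (by norm_num), ← L_group φ j 1 (by norm_num), ← L_group φ j 2 (by norm_num),
    ← L_group φ j 3 (by norm_num), Nat.add_zero] at h
  rcases h with h | h
  · unfold st at hj
    rw [decide_eq_false_iff_not] at hj
    exact absurd h hj
  · exact h

/-- **Upper bound.** -/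
theorem upper4 {φ : F3} (hs : Small φ) {τ : ℕ → Bool} (hτ : ∀ k ∈ φ, Tr τ k) :
    cost (4 * ng φ) (inst4 φ) (part _ (vst (ng φ) (st φ τ))) ≤ thr4 φ := by
  have hY := isSt_vst (ng φ) (st φ τ)
  have h₁ := isSt_vst (ng φ) (fun _ => true)
  have h₂ := isSt_vst (ng φ) (fun _ => false)
  have hcost := cost_inst4 hs (part _ (vst (ng φ) (st φ τ)))
  have cY := Gad.IsSt.c_eq _ hY
  have c12 := Gad.IsSt.c_add_eq _ h₁.mem h₂.mem hY
  rw [Nat.card_eq_fintype_card, Fintype.card_fin] at cY c12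
  have hng := ng_pos φ
  -- the function with the two sides
  let f : Fin (4 * ng φ) → ℚ := fun u => if chi φ τ (L φ u) = true then 1 else 0
  have hf : f ∈ V (part _ (X φ) ⊔ part _ (vst (ng φ) (st φ τ))) := by
    rw [V_sup, Submodule.mem_inf]
    constructor
    · intro u v huv
      unfold X at huv
      rw [part_range] at huv
      simp only [f, huv]
    · rw [hY.mem f]
      intro x
      constructor
      · intro hx
        unfold st at hx
        rw [decide_eq_true_eq] at hx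
        constructor
        · change (if chi φ τ (L φ (4 * x)) = true then (1 : ℚ) else 0) =
            (if chi φ τ (L φ (4 * x + 1)) = true then (1 : ℚ) else 0)
          rw [hx.1]
        · change (if chi φ τ (L φ (4 * x + 2)) = true then (1 : ℚ) else 0) =
            (if chi φ τ (L φ (4 * x + 3)) = true then (1 : ℚ) else 0)
          rw [hx.2]
      · intro hx
        have hx' := st_false hs hτ hx
        constructor
        · change (if chi φ τ (L φ (4 * x + 1)) = true then (1 : ℚ) else 0) =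
            (if chi φ τ (L φ (4 * x + 2)) = true then (1 : ℚ) else 0)
          rw [hx'.1]
        · change (if chi φ τ (L φ (4 * x + 3)) = true then (1 : ℚ) else 0) =
            (if chi φ τ (L φ (4 * x)) = true then (1 : ℚ) else 0)
          rw [hx'.2]
  have hL0 : L φ 0 = 0 := IsHub.L_eq (Or.inl rfl)
  have hL2 : L φ 2 = 2 := IsHub.L_eq (Or.inr (Or.inl rfl))
  have g0 := gg_pos φ
  have hmn := mm_le_ng φ
  have hmp := mm_pos φ
  have hne : ¬ (part _ (X φ) ⊔ part _ (vst (ng φ) (st φ τ))) (⟨0, hng⟩ : Fin (4 * ng φ))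
      ⟨2, by omega⟩ := by
    intro h
    have := hf _ _ h
    simp [f, hL0, hL2, chi, g0] at this
  have h2 := two_le_c hne
  unfold thr4
  omega

/-! ### Polynomial time -/

theorem UPoly_mm : UPoly mm :=
  UPoly.add UPoly_gg (UPoly.mul (UPoly.const 2) (UPoly.length NPC.Poly.id))

theorem UPoly_ng : UPoly ng :=
  UPoly.mul (UPoly.mul (UPoly.const 4) UPoly_mm) UPoly_mm

@[fun_prop]
theorem Poly_mm : NPC.Poly mm := UPoly_mm.toPoly

@[fun_prop]
theorem Poly_ng : NPC.Poly ng := UPoly_ng.toPoly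

theorem poly_range4 : NPC.Poly (fun φ : F3 => List.range (4 * ng φ)) :=
  UPoly.range (UPoly.mul (UPoly.const 4) UPoly_ng)

theorem poly_rangeM : NPC.Poly (fun φ : F3 => List.range (4 * mm φ)) :=
  UPoly.range (UPoly.mul (UPoly.const 4) UPoly_mm)

@[fun_prop]
theorem Poly_ll {α : Type} [TEnc α] {l : α → Lit ℕ} (hl : NPC.Poly l) :
    NPC.Poly (fun a => ll (l a)) := by
  unfold ll
  fun_prop

@[fun_prop]
theorem Poly_cls {α : Type} [TEnc α] {φ : α → F3} {k : α → ℕ} (h : NPC.Poly φ) (hk : NPC.Poly k) :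
    NPC.Poly (fun a => cls (φ a) (k a)) := by
  unfold cls
  exact NPC.Poly.getD h hk (NPC.Poly.const _)

@[fun_prop]
theorem Poly_L {α : Type} [TEnc α] {φ : α → F3} {u : α → ℕ} (h : NPC.Poly φ) (hu : NPC.Poly u) :
    NPC.Poly (fun a => L (φ a) (u a)) := by
  have h1 : NPC.Poly (fun a => gg (φ a)) := Poly_gg.comp h
  have h2 : NPC.Poly (fun a => mm (φ a)) := Poly_mm.comp h
  unfold L hub
  fun_prop

theorem poly_X : NPC.Poly X := by
  unfold X
  exact NPC.Poly.map (F := fun φ u => L φ u) poly_range4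
    (Poly_L (NPC.Poly.fst NPC.Poly.id) (NPC.Poly.snd NPC.Poly.id))

theorem poly_vst4 (t : Bool) : NPC.Poly (fun φ : F3 => vst (ng φ) (fun _ => t)) := by
  unfold vst
  exact NPC.Poly.map (F := fun _ u => lab t u) poly_range4 (by fun_prop)

theorem poly_inst4 : NPC.Poly inst4 := by
  unfold inst4
  exact NPC.Poly.cons (poly_vst4 true) (NPC.Poly.cons (poly_vst4 false)
    (NPC.Poly.cons poly_X (NPC.Poly.cons poly_range4 (NPC.Poly.const []))))

theorem poly_cX : NPC.Poly cX := by
  unfold cX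
  exact (NPC.Poly.filter (p := fun (φ : F3) u => decide (L φ u = u)) poly_range4
    (by fun_prop)).length

theorem poly_thr4 : NPC.Poly thr4 := by
  unfold thr4
  have := poly_cX
  fun_prop

end Pool.Agent.Y410.PM
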