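import Pool.Agent.Y410.PM.Up3
import Pool.Agent.Y410.PM.Upper

/-!
# Every fixed number `k ≥ 3` of partitions

The pair consisting of the partition into singletons and the partition with one class adds a
constant to the sum of the distances.
-/

namespace Pool.Agent.Y410.PMK

open Pool.Agent.NPC Pool.Agent.H619R2.PM

/-- `Xs` is a nonempty list of (label vectors of) partitions of `{0, …, n-1}`, with labels smaller
than `n`. -/
def WF (n : ℕ) (Xs : List (List ℕ)) : Prop :=
  Xs ≠ [] ∧ ∀ X ∈ Xs, X.length = n ∧ ∀ l ∈ X, l < n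

/-- The decision problem for `k` partitions: is there a partition `Y` of `{0, …, n-1}` for which the
sum of the distances to the `k` given partitions is at most the given number? -/
def MedianK (k : ℕ) (I : List (List ℕ) × ℕ) : Prop :=
  ∃ n, WF n I.1 ∧ I.1.length = k ∧ ∃ Y : Setoid (Fin n), cost n I.1 Y ≤ I.2

/-- All partitions but the first one are given by the list `A n`, which depends only on `n`. -/
def Fixed (A : ℕ → List (List ℕ)) (n : ℕ) (Xs : List (List ℕ)) : Prop :=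
  ∃ X : List ℕ, Xs = X :: A n

/-- The decision problem with fixed partitions `A n` and one arbitrary partition. -/
def MedianFixed (A : ℕ → List (List ℕ)) (I : List (List ℕ) × ℕ) : Prop :=
  ∃ n, WF n I.1 ∧ Fixed A n I.1 ∧ ∃ Y : Setoid (Fin n), cost n I.1 Y ≤ I.2

/-! ### The pair of trivial partitions -/

theorem part_replicate (n : ℕ) : part n (List.replicate n 0) = ⊤ := by
  apply Setoid.ext
  intro u v
  change (List.replicate n 0).getD u 0 = (List.replicate n 0).getD v 0 ↔ _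
  rw [List.getD_eq_getElem _ _ (by simp), List.getD_eq_getElem _ _ (by simp)]
  simp

theorem c_top {n : ℕ} (hn : 1 ≤ n) : c (⊤ : Setoid (Fin n)) = 1 := by
  refine le_antisymm (PM.c_le_one ⟨0, hn⟩ (fun u => trivial)) ?_
  rw [c_eq_card]
  have : Nonempty (Quotient (⊤ : Setoid (Fin n))) := ⟨Quotient.mk _ ⟨0, hn⟩⟩
  exact Finite.card_pos

theorem pair_dist {n : ℕ} (hn : 1 ≤ n) (Y : Setoid (Fin n)) :
    dist (part n (List.range n)) Y + dist (part n (List.replicate n 0)) Y = n - 1 := by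
  have h1 := dist_eq (part n (List.range n)) Y
  have h2 := dist_eq (part n (List.replicate n 0)) Y
  rw [part_replicate] at h2 ⊢
  rw [PM.part_id, bot_sup_eq, c_bot, Nat.card_eq_fintype_card, Fintype.card_fin] at h1
  rw [PM.part_id]
  rw [top_sup_eq, c_top hn] at h2
  omega

theorem cost_pair {n : ℕ} (hn : 1 ≤ n) (Xs : List (List ℕ)) (Y : Setoid (Fin n)) :
    cost n (Xs ++ [List.range n, List.replicate n 0]) Y = cost n Xs Y + (n - 1) := by
  rw [cost_append, ← pair_dist hn Y]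
  congr 1

/-! ### Reductions -/

/-- A reduction of 3SAT to the problem with `k` partitions, all but one of which are fixed. -/
structure Red (k : ℕ) where
  A : ℕ → List (List ℕ)
  X : F3 → List ℕ
  N : F3 → ℕ
  t : F3 → ℕ
  dec : F3 → List ℕ → Bool
  lenA : ∀ n, (A n).length + 1 = k
  pos : ∀ φ, 1 ≤ N φ
  polyI : NPC.Poly (fun φ => X φ :: A (N φ))
  polyN : NPC.Poly N
  polyR : NPC.Poly (fun φ => List.range (N φ))
  polyt : NPC.Poly t
  polydec : NPC.Poly (fun p : F3 × List ℕ => dec p.1 p.2)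
  wf : ∀ φ, H619R2.PM.Small φ → WF (N φ) (X φ :: A (N φ))
  up : ∀ φ, H619R2.PM.Small φ → SAT3 φ → ∃ Y : Setoid (Fin (N φ)), cost (N φ) (X φ :: A (N φ)) Y ≤ t φ
  low : ∀ φ, H619R2.PM.Small φ → ∀ Y : Setoid (Fin (N φ)), cost (N φ) (X φ :: A (N φ)) Y ≤ t φ → SAT3 φ
  lowdec : ∀ φ, H619R2.PM.Small φ → ∀ Y : List ℕ, cost (N φ) (X φ :: A (N φ)) (part (N φ) Y) ≤ t φ →
    dec φ Y = true
  decsat : ∀ φ Y, dec φ Y = true → SAT3 φ

/-- Two more partitions. -/
def Red.step {k : ℕ} (R : Red k) : Red (k + 2) where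
  A n := R.A n ++ [List.range n, List.replicate n 0]
  X := R.X
  N := R.N
  t φ := R.t φ + (R.N φ - 1)
  dec := R.dec
  lenA n := by
    have := R.lenA n
    rw [List.length_append]
    simp only [List.length_cons, List.length_nil]
    omega
  pos := R.pos
  polyI := by
    have h := R.polyR
    have h2 : NPC.Poly (fun φ : F3 => List.replicate (R.N φ) 0) := poly_replicate' h (NPC.Poly.const 0)
    exact NPC.Poly.append R.polyI (NPC.Poly.cons h (NPC.Poly.cons h2 (NPC.Poly.const [])))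
  polyN := R.polyN
  polyR := R.polyR
  polyt := by
    have h1 := R.polyt
    have h2 := R.polyN
    fun_prop
  polydec := R.polydec
  wf φ hs := by
    obtain ⟨h1, h2⟩ := R.wf φ hs
    refine ⟨by simp, fun X hX => ?_⟩
    rw [← List.cons_append, List.mem_append] at hX
    rcases hX with hX | hX
    · exact h2 X hX
    · simp only [List.mem_cons, List.not_mem_nil, or_false] at hX
      rcases hX with rfl | rfl
      · exact ⟨by simp, fun l hl => by simpa using hl⟩
      · refine ⟨by simp, fun l hl => ?_⟩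
        rw [List.mem_replicate] at hl
        rw [hl.2]
        exact R.pos φ
  up φ hs h := by
    obtain ⟨Y, hY⟩ := R.up φ hs h
    refine ⟨Y, ?_⟩
    rw [← List.cons_append, cost_pair (R.pos φ)]
    omega
  low φ hs Y hY := by
    rw [← List.cons_append, cost_pair (R.pos φ)] at hY
    exact R.low φ hs Y (by omega)
  lowdec φ hs Y hY := by
    rw [← List.cons_append, cost_pair (R.pos φ)] at hY
    exact R.lowdec φ hs Y (by omega)
  decsat := R.decsat

/-! ### Three partitions -/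

/-- the assignment read off from a label vector -/
def asg3 (φ : F3) (Y : List ℕ) (v : ℕ) : Bool :=
  (List.range (12 * PM3.mm φ)).any (fun t =>
    decide (Y.getD (6 * (4 * v + t * PM3.mm φ)) 0 = Y.getD (6 * (4 * v + t * PM3.mm φ) + 1) 0))

/-- all clauses are satisfied by the assignment read off from a label vector -/
def test3 (φ : F3) (Y : List ℕ) : Bool :=
  φ.all (fun c => (decide (asg3 φ Y c.1.2 = c.1.1) ||
    (decide (asg3 φ Y c.2.1.2 = c.2.1.1) || decide (asg3 φ Y c.2.2.2 = c.2.2.1))))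

theorem UPoly_mm3 : UPoly PM3.mm :=
  UPoly.add (UPoly.mul (UPoly.const 4) UPoly_gg) (UPoly.mul (UPoly.const 2) (UPoly.length NPC.Poly.id))

theorem UPoly_ng3 : UPoly PM3.ng :=
  UPoly.mul (UPoly.mul (UPoly.const 12) UPoly_mm3) UPoly_mm3

@[fun_prop]
theorem Poly_mm3 : NPC.Poly PM3.mm := UPoly_mm3.toPoly

@[fun_prop]
theorem Poly_ng3 : NPC.Poly PM3.ng := UPoly_ng3.toPoly

theorem poly_range3 : NPC.Poly (fun φ : F3 => List.range (6 * PM3.ng φ)) :=
  UPoly.range (UPoly.mul (UPoly.const 6) UPoly_ng3)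

theorem poly_rangeM3 : NPC.Poly (fun φ : F3 => List.range (12 * PM3.mm φ)) :=
  UPoly.range (UPoly.mul (UPoly.const 12) UPoly_mm3)

@[fun_prop]
theorem Poly_ll3 {α : Type} [TEnc α] {l : α → Lit ℕ} (hl : NPC.Poly l) :
    NPC.Poly (fun a => PM3.ll (l a)) := by
  unfold PM3.ll
  fun_prop

@[fun_prop]
theorem Poly_cls3 {α : Type} [TEnc α] {φ : α → F3} {k : α → ℕ} (h : NPC.Poly φ)
    (hk : NPC.Poly k) : NPC.Poly (fun a => PM3.cls (φ a) (k a)) := by
  unfold PM3.cls
  exact NPC.Poly.getD h hk (NPC.Poly.const _)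

@[fun_prop]
theorem Poly_L3 {α : Type} [TEnc α] {φ : α → F3} {u : α → ℕ} (h : NPC.Poly φ)
    (hu : NPC.Poly u) : NPC.Poly (fun a => PM3.L (φ a) (u a)) := by
  have h1 : NPC.Poly (fun a => gg (φ a)) := Poly_gg.comp h
  have h2 : NPC.Poly (fun a => PM3.mm (φ a)) := Poly_mm3.comp h
  unfold PM3.L PM3.hub
  fun_prop

@[fun_prop]
theorem Poly_la {α : Type} [TEnc α] {u : α → ℕ} (hu : NPC.Poly u) :
    NPC.Poly (fun a => PM3.la (u a)) := by
  unfold PM3.la
  fun_prop

@[fun_prop]
theorem Poly_lb {α : Type} [TEnc α] {u : α → ℕ} (hu : NPC.Poly u) :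
    NPC.Poly (fun a => PM3.lb (u a)) := by
  unfold PM3.lb
  fun_prop

theorem poly_X3 : NPC.Poly PM3.X := by
  unfold PM3.X
  exact NPC.Poly.map (F := fun φ u => PM3.L φ u) poly_range3
    (Poly_L3 (NPC.Poly.fst NPC.Poly.id) (NPC.Poly.snd NPC.Poly.id))

theorem poly_la : NPC.Poly (fun φ : F3 => (List.range (6 * PM3.ng φ)).map PM3.la) :=
  NPC.Poly.map (F := fun _ u => PM3.la u) poly_range3 (by fun_prop)

theorem poly_lb : NPC.Poly (fun φ : F3 => (List.range (6 * PM3.ng φ)).map PM3.lb) :=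
  NPC.Poly.map (F := fun _ u => PM3.lb u) poly_range3 (by fun_prop)

theorem poly_cnt {l : F3 → ℕ → ℕ} (h : NPC.Poly (fun p : F3 × ℕ => l p.1 p.2)) :
    NPC.Poly (fun φ : F3 => PM3.cnt (6 * PM3.ng φ) (l φ)) := by
  unfold PM3.cnt
  exact (NPC.Poly.filter (p := fun (φ : F3) u => decide (l φ u = u)) poly_range3
    (by fun_prop)).length

theorem poly_C3 : NPC.Poly PM3.C3 := by
  unfold PM3.C3
  have h1 := poly_cnt (l := fun _ => PM3.la) (by fun_prop)
  have h2 := poly_cnt (l := fun _ => PM3.lb) (by fun_prop)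
  have h3 := poly_cnt (l := fun φ => PM3.L φ) (by fun_prop)
  fun_prop

theorem poly_thr3 : NPC.Poly PM3.thr3 := by
  unfold PM3.thr3
  have := poly_C3
  fun_prop

@[fun_prop]
theorem poly_asg3 {α : Type} [TEnc α] {φ : α → F3} {Y : α → List ℕ} {v : α → ℕ}
    (hφ : NPC.Poly φ) (hY : NPC.Poly Y) (hv : NPC.Poly v) :
    NPC.Poly (fun a => asg3 (φ a) (Y a) (v a)) := by
  have h2 : NPC.Poly (fun a => PM3.mm (φ a)) := Poly_mm3.comp hφ
  have h3 : NPC.Poly (fun a => List.range (12 * PM3.mm (φ a))) := poly_rangeM3.comp hφ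
  unfold asg3
  fun_prop

theorem poly_test3 : NPC.Poly (fun p : F3 × List ℕ => test3 p.1 p.2) := by
  unfold test3
  fun_prop

theorem test3_iff (φ : F3) (Y : List ℕ) : test3 φ Y = true ↔ ∀ c ∈ φ, Tr (asg3 φ Y) c := by
  unfold test3 Tr
  simp [List.all_eq_true]

theorem cost_rot3 (φ : F3) (Y : Setoid (Fin (6 * PM3.ng φ))) :
    cost (6 * PM3.ng φ) (PM3.X φ :: [(List.range (6 * PM3.ng φ)).map PM3.la,
      (List.range (6 * PM3.ng φ)).map PM3.lb]) Y = cost (6 * PM3.ng φ) (PM3.inst3 φ) Y := by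
  unfold cost PM3.inst3
  simp only [List.map_cons, List.map_nil, List.sum_cons, List.sum_nil]
  ring

theorem small_ren3 (φ : F3) : H619R2.PM.Small (ren3 φ) := by
  have hlen : (vars3 φ).length = 3 * φ.length := by
    unfold vars3
    rw [List.length_flatMap]
    simp [mul_comm]
  have hg : gg (ren3 φ) = 3 * φ.length + 1 := by
    unfold gg ren3
    rw [List.length_map]
  have key : ∀ v ∈ vars3 φ, index (vars3 φ) v < gg (ren3 φ) := by
    intro v hv
    have h := getElem?_index hv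
    have := (List.getElem?_eq_some_iff.1 h).1
    omega
  intro c hc
  unfold ren3 at hc
  rw [List.mem_map] at hc
  obtain ⟨d, hd, rfl⟩ := hc
  obtain ⟨h1, h2, h3⟩ := mem_vars3 hd
  exact ⟨key _ h1, key _ h2, key _ h3⟩

/-- 3SAT with small names of variables. -/
theorem hardPr : HardPr (fun φ : F3 => H619R2.PM.Small φ) SAT3 :=
  hardPr_SAT3.trans (f := ren3 (V := ℕ)) ren3_poly
    (fun φ _ => small_ren3 φ) (fun φ _ => ren3_sat φ)

/-- The reduction to three partitions. -/
def red3 : Red 3 where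
  A n := [(List.range n).map PM3.la, (List.range n).map PM3.lb]
  X := PM3.X
  N φ := 6 * PM3.ng φ
  t := PM3.thr3
  dec := test3
  lenA _ := rfl
  pos φ := PM3.ng_pos φ
  polyI := NPC.Poly.cons poly_X3 (NPC.Poly.cons poly_la (NPC.Poly.cons poly_lb (NPC.Poly.const [])))
  polyN := by fun_prop
  polyR := poly_range3
  polyt := poly_thr3
  polydec := poly_test3
  wf φ hs := by
    refine ⟨by simp, fun X hX => ?_⟩
    simp only [List.mem_cons, List.not_mem_nil, or_false] at hX
    rcases hX with rfl | rfl | rfl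
    · refine ⟨by simp [PM3.X], fun l hl => ?_⟩
      simp only [PM3.X, List.mem_map, List.mem_range] at hl
      obtain ⟨u, hu, rfl⟩ := hl
      exact PM3.L_lt hs hu
    · refine ⟨by simp, fun l hl => ?_⟩
      simp only [List.mem_map, List.mem_range] at hl
      obtain ⟨u, hu, rfl⟩ := hl
      exact PM3.la_lt hu
    · refine ⟨by simp, fun l hl => ?_⟩
      simp only [List.mem_map, List.mem_range] at hl
      obtain ⟨u, hu, rfl⟩ := hl
      exact PM3.lb_lt hu
  up φ hs h := by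
    obtain ⟨τ, hτ⟩ := h
    refine ⟨part _ (PM3.ys (PM3.ng φ) (PM3.st φ τ)), ?_⟩
    rw [cost_rot3]
    exact PM3.upper3 hs hτ
  low φ hs Y hY := by
    rw [cost_rot3] at hY
    classical
    obtain ⟨τ, hτ⟩ : ∃ τ : ℕ → Bool, ∀ v, τ v = true ↔ ∃ t < 12 * PM3.mm φ,
        Y (PM3.E φ (6 * PM3.cpy φ (4 * v) t)) (PM3.E φ (6 * PM3.cpy φ (4 * v) t + 1)) :=
      ⟨fun v => decide _, fun v => decide_eq_true_iff⟩
    exact ⟨τ, PM3.lower3 hs PM3.C3_ge hY (fun v _ => hτ v)⟩
  lowdec φ hs Y hY := by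
    rw [cost_rot3] at hY
    rw [test3_iff]
    refine PM3.lower3 hs PM3.C3_ge hY (fun v hv => ?_)
    unfold asg3
    rw [List.any_eq_true]
    have hvm : 4 * v < PM3.mm φ := by
      have := PM3.gg_le_mm φ
      omega
    have key : ∀ t < 12 * PM3.mm φ, (part (6 * PM3.ng φ) Y) (PM3.E φ (6 * PM3.cpy φ (4 * v) t))
        (PM3.E φ (6 * PM3.cpy φ (4 * v) t + 1)) ↔
        Y.getD (6 * (4 * v + t * PM3.mm φ)) 0 = Y.getD (6 * (4 * v + t * PM3.mm φ) + 1) 0 := by
      intro t ht
      have hlt := PM3.cpy_lt hvm ht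
      have e1 : 6 * PM3.cpy φ (4 * v) t % (6 * PM3.ng φ) = 6 * (4 * v + t * PM3.mm φ) := by
        unfold PM3.cpy at hlt ⊢
        exact Nat.mod_eq_of_lt (by omega)
      have e2 : (6 * PM3.cpy φ (4 * v) t + 1) % (6 * PM3.ng φ) =
          6 * (4 * v + t * PM3.mm φ) + 1 := by
        unfold PM3.cpy at hlt ⊢
        exact Nat.mod_eq_of_lt (by omega)
      change Y.getD (6 * PM3.cpy φ (4 * v) t % (6 * PM3.ng φ)) 0 =
        Y.getD ((6 * PM3.cpy φ (4 * v) t + 1) % (6 * PM3.ng φ)) 0 ↔ _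
      rw [e1, e2]
    constructor
    · rintro ⟨t, ht, h⟩
      rw [List.mem_range] at ht
      rw [decide_eq_true_eq] at h
      exact ⟨t, ht, (key t ht).2 h⟩
    · rintro ⟨t, ht, h⟩
      exact ⟨t, List.mem_range.2 ht, by rw [decide_eq_true_eq]; exact (key t ht).1 h⟩
  decsat φ Y h := ⟨_, (test3_iff φ Y).1 h⟩

/-! ### Four partitions -/

/-- the assignment read off from a label vector -/
def asg4 (φ : F3) (Y : List ℕ) (v : ℕ) : Bool :=
  (List.range (4 * PM.mm φ)).any (fun t =>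
    decide (Y.getD (4 * (v + t * PM.mm φ)) 0 = Y.getD (4 * (v + t * PM.mm φ) + 1) 0))

/-- all clauses are satisfied by the assignment read off from a label vector -/
def test4 (φ : F3) (Y : List ℕ) : Bool :=
  φ.all (fun c => (decide (asg4 φ Y c.1.2 = c.1.1) ||
    (decide (asg4 φ Y c.2.1.2 = c.2.1.1) || decide (asg4 φ Y c.2.2.2 = c.2.2.1))))

@[fun_prop]
theorem poly_asg4 {α : Type} [TEnc α] {φ : α → F3} {Y : α → List ℕ} {v : α → ℕ}
    (hφ : NPC.Poly φ) (hY : NPC.Poly Y) (hv : NPC.Poly v) :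
    NPC.Poly (fun a => asg4 (φ a) (Y a) (v a)) := by
  have h2 : NPC.Poly (fun a => PM.mm (φ a)) := PM.Poly_mm.comp hφ
  have h3 : NPC.Poly (fun a => List.range (4 * PM.mm (φ a))) := PM.poly_rangeM.comp hφ
  unfold asg4
  fun_prop

theorem poly_test4 : NPC.Poly (fun p : F3 × List ℕ => test4 p.1 p.2) := by
  unfold test4
  fun_prop

theorem test4_iff (φ : F3) (Y : List ℕ) : test4 φ Y = true ↔ ∀ c ∈ φ, Tr (asg4 φ Y) c := by
  unfold test4 Tr
  simp [List.all_eq_true]

theorem cost_rot4 (φ : F3) (Y : Setoid (Fin (4 * PM.ng φ))) :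
    cost (4 * PM.ng φ) (PM.X φ :: [(List.range (4 * PM.ng φ)).map (lab true),
      (List.range (4 * PM.ng φ)).map (lab false), List.range (4 * PM.ng φ)]) Y =
      cost (4 * PM.ng φ) (PM.inst4 φ) Y := by
  unfold cost PM.inst4 vst
  simp only [List.map_cons, List.map_nil, List.sum_cons, List.sum_nil]
  ring

/-- The reduction to four partitions. -/
def red4 : Red 4 where
  A n := [(List.range n).map (lab true), (List.range n).map (lab false), List.range n]
  X := PM.X
  N φ := 4 * PM.ng φ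
  t := PM.thr4
  dec := test4
  lenA _ := rfl
  pos φ := PM.ng_pos φ
  polyI := NPC.Poly.cons PM.poly_X (NPC.Poly.cons (PM.poly_vst4 true)
    (NPC.Poly.cons (PM.poly_vst4 false) (NPC.Poly.cons PM.poly_range4 (NPC.Poly.const []))))
  polyN := by
    have := PM.Poly_ng
    fun_prop
  polyR := PM.poly_range4
  polyt := PM.poly_thr4
  polydec := poly_test4
  wf φ hs := by
    refine ⟨by simp, fun X hX => ?_⟩
    simp only [List.mem_cons, List.not_mem_nil, or_false] at hX
    rcases hX with rfl | rfl | rfl | rfl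
    · refine ⟨by simp [PM.X], fun l hl => ?_⟩
      simp only [PM.X, List.mem_map, List.mem_range] at hl
      obtain ⟨u, hu, rfl⟩ := hl
      exact PM.L_lt hs u
    · refine ⟨by simp, fun l hl => ?_⟩
      simp only [List.mem_map, List.mem_range] at hl
      obtain ⟨u, hu, rfl⟩ := hl
      exact lab_lt _ hu
    · refine ⟨by simp, fun l hl => ?_⟩
      simp only [List.mem_map, List.mem_range] at hl
      obtain ⟨u, hu, rfl⟩ := hl
      exact lab_lt _ hu
    · exact ⟨by simp, fun l hl => by simpa using hl⟩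
  up φ hs h := by
    obtain ⟨τ, hτ⟩ := h
    refine ⟨part _ (vst (PM.ng φ) (PM.st φ τ)), ?_⟩
    rw [cost_rot4]
    exact PM.upper4 hs hτ
  low φ hs Y hY := by
    rw [cost_rot4] at hY
    classical
    obtain ⟨τ, hτ⟩ : ∃ τ : ℕ → Bool, ∀ v, τ v = true ↔ ∃ t < 4 * PM.mm φ,
        Y (PM.E φ (4 * PM.cp φ v t)) (PM.E φ (4 * PM.cp φ v t + 1)) :=
      ⟨fun v => decide _, fun v => decide_eq_true_iff⟩
    exact ⟨τ, PM.lower4 hs hY (fun v _ => hτ v)⟩
  lowdec φ hs Y hY := by
    rw [cost_rot4] at hY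
    rw [test4_iff]
    refine PM.lower4 hs hY (fun v hv => ?_)
    unfold asg4
    rw [List.any_eq_true]
    have key : ∀ t < 4 * PM.mm φ, (part (4 * PM.ng φ) Y) (PM.E φ (4 * PM.cp φ v t))
        (PM.E φ (4 * PM.cp φ v t + 1)) ↔
        Y.getD (4 * (v + t * PM.mm φ)) 0 = Y.getD (4 * (v + t * PM.mm φ) + 1) 0 := by
      intro t ht
      have hlt := PM.cp_lt (lt_of_lt_of_le hv (PM.gg_le_mm φ)) ht
      have e1 : 4 * PM.cp φ v t % (4 * PM.ng φ) = 4 * (v + t * PM.mm φ) := by
        unfold PM.cp at hlt ⊢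
        exact Nat.mod_eq_of_lt (by omega)
      have e2 : (4 * PM.cp φ v t + 1) % (4 * PM.ng φ) = 4 * (v + t * PM.mm φ) + 1 := by
        unfold PM.cp at hlt ⊢
        exact Nat.mod_eq_of_lt (by omega)
      change Y.getD (4 * PM.cp φ v t % (4 * PM.ng φ)) 0 =
        Y.getD ((4 * PM.cp φ v t + 1) % (4 * PM.ng φ)) 0 ↔ _
      rw [e1, e2]
    constructor
    · rintro ⟨t, ht, h⟩
      rw [List.mem_range] at ht
      rw [decide_eq_true_eq] at h
      exact ⟨t, ht, (key t ht).2 h⟩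
    · rintro ⟨t, ht, h⟩
      exact ⟨t, List.mem_range.2 ht, by rw [decide_eq_true_eq]; exact (key t ht).1 h⟩
  decsat φ Y h := ⟨_, (test4_iff φ Y).1 h⟩

/-- There is a reduction for every `k ≥ 3`. -/
theorem exists_red : ∀ k : ℕ, Nonempty (Red (k + 3)) ∧ Nonempty (Red (k + 4))
  | 0 => ⟨⟨red3⟩, ⟨red4⟩⟩
  | k + 1 => by
    obtain ⟨⟨R⟩, h2⟩ := exists_red k
    exact ⟨h2, ⟨R.step⟩⟩

/-! ### The hardness from a reduction -/

variable {k : ℕ} (R : Red k)

include R

theorem eq_of_wf {φ : F3} (hs : H619R2.PM.Small φ) {n : ℕ} (h : WF n (R.X φ :: R.A (R.N φ))) :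
    n = R.N φ := by
  have h1 := (h.2 _ List.mem_cons_self).1
  have h2 := ((R.wf φ hs).2 _ List.mem_cons_self).1
  omega

theorem hard_fixed : NPHardP (MedianFixed R.A) := by
  have h : HardPr (fun _ => True) (MedianFixed R.A) := by
    refine hardPr.trans (f := fun φ => (R.X φ :: R.A (R.N φ), R.t φ))
      (NPC.Poly.pair R.polyI R.polyt) (fun _ _ => trivial) (fun φ hs => ?_)
    constructor
    · intro h
      exact ⟨R.N φ, R.wf φ hs, ⟨_, rfl⟩, R.up φ hs h⟩
    · rintro ⟨n, hn, _, Y, hY⟩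
      obtain rfl := eq_of_wf R hs hn
      exact R.low φ hs Y hY
  exact h.toHardI.toNPHardP

theorem hard_k : NPHardP (MedianK k) := by
  have h : HardPr (fun _ => True) (MedianK k) := by
    refine hardPr.trans (f := fun φ => (R.X φ :: R.A (R.N φ), R.t φ))
      (NPC.Poly.pair R.polyI R.polyt) (fun _ _ => trivial) (fun φ hs => ?_)
    constructor
    · intro h
      exact ⟨R.N φ, R.wf φ hs, R.lenA _, R.up φ hs h⟩
    · rintro ⟨n, hn, _, Y, hY⟩
      obtain rfl := eq_of_wf R hs hn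
      exact R.low φ hs Y hY
  exact h.toHardI.toNPHardP

theorem search_fixed
    (h : ∃ F : List Bool → List Bool, PolyTime F ∧
        ∀ (n : ℕ) (Xs : List (List ℕ)), WF n Xs → Fixed R.A n Xs →
          ∃ Y : List ℕ, F (bits Xs) = bits Y ∧ Y.length = n ∧
            ∀ Z : Setoid (Fin n), cost n Xs (part n Y) ≤ cost n Xs Z) :
      ∀ L : Set (List Bool), InNP L → InP L := by
  obtain ⟨F, hF, hopt⟩ := h
  have h1 : PC (bits : F3 → List Bool) (fun x : List Bool => x)
      (fun φ => bits (R.X φ :: R.A (R.N φ))) := by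
    obtain ⟨c, p, h⟩ := R.polyI
    exact ⟨c, p, h⟩
  have h2 : PC (bits : F3 → List Bool) (fun x : List Bool => x)
      (fun φ => F (bits (R.X φ :: R.A (R.N φ)))) :=
    PC.comp (g := F) (f := fun φ => bits (R.X φ :: R.A (R.N φ)))
      (H642R2.TMSim.polyTime_toPC hF) h1
  have h3 : NPC.Poly (fun φ : F3 => F (bits (R.X φ :: R.A (R.N φ)))) :=
    PC.comp (g := fun x => x) (f := fun φ => F (bits (R.X φ :: R.A (R.N φ)))) PC.rawIn h2
  have h4 : NPC.Poly (fun φ : F3 => unbits (List ℕ) (F (bits (R.X φ :: R.A (R.N φ))))) :=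
    poly_unbits.comp h3
  refine hardPr.collapse (d := fun φ =>
    (unbits (List ℕ) (F (bits (R.X φ :: R.A (R.N φ))))).elim false (fun Y => R.dec φ Y))
    (NPC.Poly.optElim (h := fun φ Y => R.dec φ Y) h4 (NPC.Poly.const _) R.polydec)
    (fun φ hs => ?_)
  obtain ⟨Y, hY, hlen, hmin⟩ := hopt _ _ (R.wf φ hs) ⟨_, rfl⟩
  rw [hY, unbits_bits, Option.elim_some]
  constructor
  · intro hsat
    obtain ⟨Z, hZ⟩ := R.up φ hs hsat
    exact R.lowdec φ hs Y (le_trans (hmin Z) hZ)
  · intro h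
    exact R.decsat φ Y h

end Pool.Agent.Y410.PMK
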