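import Pool.Agent.H619R2.PM.Part

/-!
# The gadget for three partitions

The groups consist of six elements `0, …, 5`.  The classes of `X₁` in a group are `034`, `15`, `2`, and
those of `X₂` are `0`, `13`, `245`.  The elements `0, 1, 2` are the terminals.  For every partition `Y`,
`2 c(X₁ ⊔ Y) + 2 c(X₂ ⊔ Y) + 2 i + b ≤ 3 c(Y) + g`, where `g` is the number of groups, `i` is the number
of the classes of `Y` without terminals, and `b` is the number of the groups in which `Y` joins neither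
`0` and `1` nor `1` and `2`.
-/

namespace Pool.Agent.Y410.PM3

open Module Pool.Agent.H619R2.PM

variable {ι α : Type}

/-- If `Y` contains neither `ab, cd` nor `bc, da`, then the alternating sum of some function
which is constant on the classes of `Y` does not vanish. -/
theorem exists_alt_ne {Y : Setoid α} {a b c d : α} (hx1 : ¬ (Y a b ∧ Y c d))
    (hx2 : ¬ (Y b c ∧ Y d a)) : ∃ f ∈ V Y, f a - f b + f c - f d ≠ 0 := by
  by_contra hcon
  push Not at hcon
  have h1 := hcon _ (ind_mem Y a)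
  have h2 := hcon _ (ind_mem Y c)
  rw [ind_self] at h1 h2
  have e1 : ∀ {u v}, Y u v → ind Y v u = 1 := fun h => ind_of h
  have e0 : ∀ {u v}, ¬ Y u v → ind Y v u = 0 := fun h => ind_of_not h
  by_cases hac : Y a c
  · have hca := Y.symm' hac
    rw [e1 hca] at h1
    by_cases hba : Y b a
    · by_cases hda : Y d a
      · exact hx2 ⟨Y.trans' hba hac, hda⟩
      · rw [e1 hba, e0 hda] at h1
        norm_num at h1
    · by_cases hda : Y d a
      · rw [e0 hba, e1 hda] at h1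
        norm_num at h1
      · rw [e0 hba, e0 hda] at h1
        norm_num at h1
  · have hca : ¬ Y c a := fun h => hac (Y.symm' h)
    rw [e0 hca] at h1
    rw [e0 hac] at h2
    by_cases hba : Y b a
    · have hbc : ¬ Y b c := fun h => hac (Y.trans' (Y.symm' hba) h)
      by_cases hdc : Y d c
      · exact hx1 ⟨Y.symm' hba, Y.symm' hdc⟩
      · rw [e0 hbc, e0 hdc] at h2
        norm_num at h2
    · by_cases hda : Y d a
      · have hdc : ¬ Y d c := fun h => hac (Y.trans' (Y.symm' hda) h)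
        by_cases hbc : Y b c
        · exact hx2 ⟨hbc, hda⟩
        · rw [e0 hbc, e0 hdc] at h2
          norm_num at h2
      · rw [e0 hba, e0 hda] at h1
        norm_num at h1

/-- difference of two values -/
def difL (a b : α) : Module.Dual ℚ (α → ℚ) :=
  (LinearMap.proj a : (α → ℚ) →ₗ[ℚ] ℚ) - LinearMap.proj b

theorem difL_apply (a b : α) (f : α → ℚ) : difL a b f = f a - f b := by
  simp [difL]

/-- alternating sum of four values -/
def altL (a b c d : α) : Module.Dual ℚ (α → ℚ) :=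
  (LinearMap.proj a : (α → ℚ) →ₗ[ℚ] ℚ) - LinearMap.proj b + LinearMap.proj c - LinearMap.proj d

theorem altL_apply (a b c d : α) (f : α → ℚ) : altL a b c d f = f a - f b + f c - f d := by
  simp [altL]

/-- Multiplication by a function. -/
def mulL (f : α → ℚ) : (α → ℚ) →ₗ[ℚ] (α → ℚ) where
  toFun g := g * f
  map_add' g h := add_mul g h f
  map_smul' r g := by
    ext u
    simp [mul_assoc]

theorem mulL_apply (f g : α → ℚ) (u : α) : mulL f g u = g u * f u := rfl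

/-- The functions which vanish on the terminals. -/
def Z0 (e : Fin 6 → ι → α) : Submodule ℚ (α → ℚ) where
  carrier := {f | ∀ x, f (e 0 x) = 0 ∧ f (e 1 x) = 0 ∧ f (e 2 x) = 0}
  add_mem' := by
    intro f g hf hg x
    simp only [Pi.add_apply, (hf x).1, (hf x).2.1, (hf x).2.2, (hg x).1, (hg x).2.1, (hg x).2.2,
      add_zero, and_self]
  zero_mem' := fun _ => ⟨rfl, rfl, rfl⟩
  smul_mem' := by
    intro r f hf x
    simp only [Pi.smul_apply, (hf x).1, (hf x).2.1, (hf x).2.2, smul_zero, and_self]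

theorem mem_Z0 {e : Fin 6 → ι → α} {f : α → ℚ} :
    f ∈ Z0 e ↔ ∀ x, f (e 0 x) = 0 ∧ f (e 1 x) = 0 ∧ f (e 2 x) = 0 := Iff.rfl

/-- `Y` joins neither `0` and `1` nor `1` and `2`. -/
def Bad3 (e : Fin 6 → ι → α) (Y : Setoid α) (x : ι) : Prop :=
  ¬ Y (e 0 x) (e 1 x) ∧ ¬ Y (e 1 x) (e 2 x)

variable [Finite α] [Finite ι]

/-- **The inequality.** -/
theorem ineq3 {e : Fin 6 → ι → α} (cover : ∀ u, ∃ x r, u = e r x) {X₁ X₂ : Setoid α}
    (h₁ : ∀ f, f ∈ V X₁ ↔ ∀ x, f (e 3 x) = f (e 0 x) ∧ f (e 4 x) = f (e 0 x) ∧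
      f (e 5 x) = f (e 1 x))
    (h₂ : ∀ f, f ∈ V X₂ ↔ ∀ x, f (e 3 x) = f (e 1 x) ∧ f (e 4 x) = f (e 2 x) ∧
      f (e 5 x) = f (e 2 x)) (Y : Setoid α) :
    2 * c (X₁ ⊔ Y) + 2 * c (X₂ ⊔ Y) + 2 * finrank ℚ (V Y ⊓ Z0 e : Submodule ℚ (α → ℚ)) +
      Nat.card {x // Bad3 e Y x} ≤ 3 * c Y + Nat.card ι := by
  set W := V Y with hW
  set A₁ : Submodule ℚ (α → ℚ) := V X₁ ⊓ W with hA₁
  set A₂ : Submodule ℚ (α → ℚ) := V X₂ ⊓ W with hA₂
  set Z : Submodule ℚ (α → ℚ) := W ⊓ Z0 e with hZ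
  have c1 : c (X₁ ⊔ Y) = finrank ℚ A₁ := by
    unfold c
    rw [V_sup]
  have c2 : c (X₂ ⊔ Y) = finrank ℚ A₂ := by
    unfold c
    rw [V_sup]
  have hUN := Submodule.finrank_sup_add_finrank_inf_eq A₁ A₂
  set U : Submodule ℚ (α → ℚ) := A₁ ⊔ A₂ with hU
  set N : Submodule ℚ (α → ℚ) := A₁ ⊓ A₂ with hN
  -- the sums with `Z` are direct
  have hd1 : A₁ ⊓ Z = ⊥ := by
    rw [eq_bot_iff]
    intro f hf
    have g1 := (h₁ f).1 hf.1.1
    have g2 := mem_Z0.1 hf.2.2
    have : f = 0 := by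
      funext u
      obtain ⟨x, r, rfl⟩ := cover u
      obtain ⟨z0, z1, z2⟩ := g2 x
      obtain ⟨y3, y4, y5⟩ := g1 x
      rw [z0] at y3 y4
      rw [z1] at y5
      fin_cases r <;> assumption
    exact this
  have hd2 : A₂ ⊓ Z = ⊥ := by
    rw [eq_bot_iff]
    intro f hf
    have g1 := (h₂ f).1 hf.1.1
    have g2 := mem_Z0.1 hf.2.2
    have : f = 0 := by
      funext u
      obtain ⟨x, r, rfl⟩ := cover u
      obtain ⟨z0, z1, z2⟩ := g2 x
      obtain ⟨y3, y4, y5⟩ := g1 x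
      rw [z1] at y3
      rw [z2] at y4 y5
      fin_cases r <;> assumption
    exact this
  have hP1 := Submodule.finrank_sup_add_finrank_inf_eq A₁ Z
  have hP2 := Submodule.finrank_sup_add_finrank_inf_eq A₂ Z
  rw [hd1, finrank_bot, add_zero] at hP1
  rw [hd2, finrank_bot, add_zero] at hP2
  set P₁ : Submodule ℚ (α → ℚ) := A₁ ⊔ Z with hP₁
  set P₂ : Submodule ℚ (α → ℚ) := A₂ ⊔ Z with hP₂
  -- generic functions
  obtain ⟨f, hf, hfne⟩ := Module.Dual.exists_forall_mem_ne_zero_of_forall_exists W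
    (fun x : {x // ∃ f ∈ W, altL (e 3 x) (e 1 x) (e 5 x) (e 4 x) f ≠ 0} =>
      altL (e 3 x.1) (e 1 x.1) (e 5 x.1) (e 4 x.1)) (fun x => x.2)
  obtain ⟨p, hp, hpne⟩ := Module.Dual.exists_forall_mem_ne_zero_of_forall_exists W
    (fun x : {x // ∃ f ∈ W, difL (e 1 x) (e 0 x) f ≠ 0} => difL (e 1 x.1) (e 0 x.1))
    (fun x => x.2)
  obtain ⟨q, hq, hqne⟩ := Module.Dual.exists_forall_mem_ne_zero_of_forall_exists W
    (fun x : {x // ∃ f ∈ W, difL (e 1 x) (e 2 x) f ≠ 0} => difL (e 1 x.1) (e 2 x.1))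
    (fun x => x.2)
  -- facts about the submodules
  have hUW : U ≤ W := sup_le inf_le_right inf_le_right
  have hPW1 : P₁ ≤ W := sup_le inf_le_right inf_le_left
  have hPW2 : P₂ ≤ W := sup_le inf_le_right inf_le_left
  have hNc : ∀ ψ ∈ N, ∀ x r, ψ (e r x) = ψ (e 1 x) := by
    intro ψ hψ x r
    obtain ⟨y3, y4, y5⟩ := (h₁ ψ).1 hψ.1.1 x
    obtain ⟨w3, w4, w5⟩ := (h₂ ψ).1 hψ.2.1 x
    fin_cases r
    · exact y3.symm.trans w3
    · rfl
    · exact (w5.symm.trans y5)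
    · exact w3
    · exact w4.trans (w5.symm.trans y5)
    · exact y5
  have hNW : ∀ ψ ∈ N, ∀ g ∈ W, mulL g ψ ∈ W := by
    intro ψ hψ g hg v w hvw
    rw [mulL_apply, mulL_apply, hψ.1.2 v w hvw, hg v w hvw]
  have hUalt : ∀ u ∈ U, ∀ x, u (e 3 x) - u (e 1 x) + u (e 5 x) - u (e 4 x) = 0 := by
    intro u hu x
    rw [hU, Submodule.mem_sup] at hu
    obtain ⟨f1, hf1, f2, hf2, rfl⟩ := hu
    obtain ⟨y3, y4, y5⟩ := (h₁ f1).1 hf1.1 x
    obtain ⟨w3, w4, w5⟩ := (h₂ f2).1 hf2.1 x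
    simp only [Pi.add_apply]
    rw [y3, y4, y5, w3, w4, w5]
    ring
  -- the map
  let T1 : (N × U) →ₗ[ℚ] (α → ℚ) := ((mulL f).comp N.subtype).coprod U.subtype
  let T2 : (N × P₁) →ₗ[ℚ] (α → ℚ) := ((mulL p).comp N.subtype).coprod P₁.subtype
  let T3 : (N × P₂) →ₗ[ℚ] (α → ℚ) := ((mulL q).comp N.subtype).coprod P₂.subtype
  have hT1 : ∀ (ψ : N) (u : U), T1 (ψ, u) = mulL f ψ.1 + u.1 := by
    intro ψ u
    simp [T1]
  have hT2 : ∀ (ψ : N) (u : P₁), T2 (ψ, u) = mulL p ψ.1 + u.1 := by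
    intro ψ u
    simp [T2]
  have hT3 : ∀ (ψ : N) (u : P₂), T3 (ψ, u) = mulL q ψ.1 + u.1 := by
    intro ψ u
    simp [T3]
  have hr1 : ∀ s, T1 s ∈ W := by
    rintro ⟨ψ, u⟩
    rw [hT1]
    exact Submodule.add_mem _ (hNW _ ψ.2 _ hf) (hUW u.2)
  have hr2 : ∀ s, T2 s ∈ W := by
    rintro ⟨ψ, u⟩
    rw [hT2]
    exact Submodule.add_mem _ (hNW _ ψ.2 _ hp) (hPW1 u.2)
  have hr3 : ∀ s, T3 s ∈ W := by
    rintro ⟨ψ, u⟩
    rw [hT3]
    exact Submodule.add_mem _ (hNW _ ψ.2 _ hq) (hPW2 u.2)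
  let D := N × (U × (P₁ × P₂))
  let pN : D →ₗ[ℚ] N := LinearMap.fst ℚ N (U × (P₁ × P₂))
  let pU : D →ₗ[ℚ] U := LinearMap.fst ℚ U (P₁ × P₂) ∘ₗ LinearMap.snd ℚ N (U × (P₁ × P₂))
  let pP : D →ₗ[ℚ] (P₁ × P₂) := LinearMap.snd ℚ U (P₁ × P₂) ∘ₗ LinearMap.snd ℚ N (U × (P₁ × P₂))
  let p1 : D →ₗ[ℚ] P₁ := LinearMap.fst ℚ P₁ P₂ ∘ₗ pP
  let p2 : D →ₗ[ℚ] P₂ := LinearMap.snd ℚ P₁ P₂ ∘ₗ pP
  let S : D →ₗ[ℚ] ({x // ¬ Bad3 e Y x} → ℚ) :=
    LinearMap.pi fun x => (LinearMap.proj (e 1 x.1) : (α → ℚ) →ₗ[ℚ] ℚ) ∘ₗ N.subtype ∘ₗ pN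
  let R1 : D →ₗ[ℚ] W := LinearMap.codRestrict W (T1 ∘ₗ pN.prod pU) (fun s => hr1 _)
  let R2 : D →ₗ[ℚ] W := LinearMap.codRestrict W (T2 ∘ₗ pN.prod p1) (fun s => hr2 _)
  let R3 : D →ₗ[ℚ] W := LinearMap.codRestrict W (T3 ∘ₗ pN.prod p2) (fun s => hr3 _)
  let Φ : D →ₗ[ℚ] (W × (W × (W × ({x // ¬ Bad3 e Y x} → ℚ)))) :=
    R1.prod (R2.prod (R3.prod S))
  have hΦ : Function.Injective Φ := by
    rintro ⟨ψ, u, v, w⟩ ⟨ψ', u', v', w'⟩ h
    have k1 : T1 (ψ, u) = T1 (ψ', u') := congrArg (fun s => (s.1 : α → ℚ)) h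
    have k2 : T2 (ψ, v) = T2 (ψ', v') := congrArg (fun s => (s.2.1 : α → ℚ)) h
    have k3 : T3 (ψ, w) = T3 (ψ', w') := congrArg (fun s => (s.2.2.1 : α → ℚ)) h
    have k4 : ∀ x : {x // ¬ Bad3 e Y x}, ψ.1 (e 1 x.1) = ψ'.1 (e 1 x.1) := fun x =>
      congrFun (congrArg (fun s => s.2.2.2) h) x
    rw [hT1, hT1] at k1
    rw [hT2, hT2] at k2
    rw [hT3, hT3] at k3
    have m1 : ∀ z, ψ.1 z * f z + u.1 z = ψ'.1 z * f z + u'.1 z := fun z => congrFun k1 z
    have m2 : ∀ z, ψ.1 z * p z + v.1 z = ψ'.1 z * p z + v'.1 z := fun z => congrFun k2 z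
    have m3 : ∀ z, ψ.1 z * q z + w.1 z = ψ'.1 z * q z + w'.1 z := fun z => congrFun k3 z
    have hψ : ∀ x, ψ.1 (e 1 x) = ψ'.1 (e 1 x) := by
      intro x
      by_cases hx : Bad3 e Y x
      · by_cases halt : ∃ f ∈ W, altL (e 3 x) (e 1 x) (e 5 x) (e 4 x) f ≠ 0
        · have a1 := hUalt _ u.2 x
          have a2 := hUalt _ u'.2 x
          have b3 := m1 (e 3 x)
          have b1 := m1 (e 1 x)
          have b5 := m1 (e 5 x)
          have b4 := m1 (e 4 x)
          rw [hNc _ ψ.2 x 3, hNc _ ψ'.2 x 3] at b3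
          rw [hNc _ ψ.2 x 5, hNc _ ψ'.2 x 5] at b5
          rw [hNc _ ψ.2 x 4, hNc _ ψ'.2 x 4] at b4
          have e2 : (ψ.1 (e 1 x) - ψ'.1 (e 1 x)) * altL (e 3 x) (e 1 x) (e 5 x) (e 4 x) f = 0 := by
            rw [altL_apply]
            linear_combination b3 - b1 + b5 - b4 - a1 + a2
          rcases mul_eq_zero.1 e2 with h | h
          · exact sub_eq_zero.1 h
          · exact absurd h (hfne ⟨x, halt⟩)
        · -- `Y` contains `31, 54` or `15, 43`
          have hcase : (Y (e 3 x) (e 1 x) ∧ Y (e 5 x) (e 4 x)) ∨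
              (Y (e 1 x) (e 5 x) ∧ Y (e 4 x) (e 3 x)) := by
            by_contra hcon
            rw [not_or] at hcon
            obtain ⟨g, hg, hg'⟩ := exists_alt_ne hcon.1 hcon.2
            exact halt ⟨g, hg, by rwa [altL_apply]⟩
          rcases hcase with ⟨y1, _⟩ | ⟨_, y1⟩
          · have hv : ∀ s ∈ P₁, s (e 1 x) = s (e 0 x) := by
              intro s hs
              rw [hP₁, Submodule.mem_sup] at hs
              obtain ⟨s1, hs1, s2, hs2, rfl⟩ := hs
              have t1 := ((h₁ s1).1 hs1.1 x).1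
              have t2 := hs1.2 _ _ y1
              have t3 := mem_Z0.1 hs2.2 x
              simp only [Pi.add_apply]
              rw [t3.1, t3.2.1, ← t1, t2]
            have hne : ∃ g ∈ W, difL (e 1 x) (e 0 x) g ≠ 0 := by
              obtain ⟨g, hg, hg'⟩ := exists_ne_of_not hx.1
              exact ⟨g, hg, by
                rw [difL_apply]
                exact sub_ne_zero.2 hg'.symm⟩
            have b1 := m2 (e 1 x)
            have b0 := m2 (e 0 x)
            rw [hNc _ ψ.2 x 0, hNc _ ψ'.2 x 0, ← hv _ v.2, ← hv _ v'.2] at b0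
            have e2 : (ψ.1 (e 1 x) - ψ'.1 (e 1 x)) * difL (e 1 x) (e 0 x) p = 0 := by
              rw [difL_apply]
              linear_combination b1 - b0
            rcases mul_eq_zero.1 e2 with h | h
            · exact sub_eq_zero.1 h
            · exact absurd h (hpne ⟨x, hne⟩)
          · have hv : ∀ s ∈ P₂, s (e 1 x) = s (e 2 x) := by
              intro s hs
              rw [hP₂, Submodule.mem_sup] at hs
              obtain ⟨s1, hs1, s2, hs2, rfl⟩ := hs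
              have t1 := (h₂ s1).1 hs1.1 x
              have t2 := hs1.2 _ _ y1
              have t3 := mem_Z0.1 hs2.2 x
              simp only [Pi.add_apply]
              rw [t3.2.1, t3.2.2, ← t1.1, ← t2, t1.2.1]
            have hne : ∃ g ∈ W, difL (e 1 x) (e 2 x) g ≠ 0 := by
              obtain ⟨g, hg, hg'⟩ := exists_ne_of_not hx.2
              exact ⟨g, hg, by
                rw [difL_apply]
                exact sub_ne_zero.2 hg'⟩
            have b1 := m3 (e 1 x)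
            have b0 := m3 (e 2 x)
            rw [hNc _ ψ.2 x 2, hNc _ ψ'.2 x 2, ← hv _ w.2, ← hv _ w'.2] at b0
            have e2 : (ψ.1 (e 1 x) - ψ'.1 (e 1 x)) * difL (e 1 x) (e 2 x) q = 0 := by
              rw [difL_apply]
              linear_combination b1 - b0
            rcases mul_eq_zero.1 e2 with h | h
            · exact sub_eq_zero.1 h
            · exact absurd h (hqne ⟨x, hne⟩)
      · exact k4 ⟨x, hx⟩
    have hψ0 : ψ = ψ' := by
      apply Subtype.ext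
      funext z
      obtain ⟨x, r, rfl⟩ := cover z
      rw [hNc _ ψ.2 x r, hNc _ ψ'.2 x r]
      exact hψ x
    subst hψ0
    have hu0 : u = u' := by
      apply Subtype.ext
      funext z
      have := m1 z
      linarith
    have hv0 : v = v' := by
      apply Subtype.ext
      funext z
      have := m2 z
      linarith
    have hw0 : w = w' := by
      apply Subtype.ext
      funext z
      have := m3 z
      linarith
    rw [hu0, hv0, hw0]
  classical
  have := Fintype.ofFinite ι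
  have hk := LinearMap.finrank_le_finrank_of_injective hΦ
  have hDim : finrank ℚ D = finrank ℚ N + (finrank ℚ U + (finrank ℚ P₁ + finrank ℚ P₂)) := by
    rw [Module.finrank_prod, Module.finrank_prod, Module.finrank_prod]
  rw [hDim, Module.finrank_prod, Module.finrank_prod, Module.finrank_prod, Module.finrank_pi,
    ← Nat.card_eq_fintype_card] at hk
  have hcard : Nat.card {x // Bad3 e Y x} + Nat.card {x // ¬ Bad3 e Y x} = Nat.card ι := by
    rw [Nat.card_eq_fintype_card, Nat.card_eq_fintype_card, Nat.card_eq_fintype_card,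
      Fintype.card_subtype_compl]
    have := Fintype.card_subtype_le (Bad3 e Y)
    omega
  have hcY : c Y = finrank ℚ W := rfl
  omega

end Pool.Agent.Y410.PM3
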