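import Pool.Agent.Y410.PM.Low3

/-!
# The instance with three partitions: a satisfying assignment gives a cheap partition
-/

namespace Pool.Agent.Y410.PM3

open Module Pool.Agent.NPC Pool.Agent.H619R2.PM

/-- the truth value of a literal -/
def tv (τ : ℕ → Bool) (l : Lit ℕ) : Bool := decide (τ l.2 = l.1)

/-- The side (true or false) of a label. -/
def chi (φ : F3) (τ : ℕ → Bool) (h : ℕ) : Bool :=
  if h / 6 < 4 * gg φ then
    (if h % 6 = 0 then true else if h % 6 = 2 then false
      else if h / 6 % 4 = 0 then τ (h / 6 / 4) else !(τ (h / 6 / 4)))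
  else (tv τ (cls φ ((h / 6 - 4 * gg φ) / 2)).2.1 || tv τ (cls φ ((h / 6 - 4 * gg φ) / 2)).2.2)

theorem chi_x {φ : F3} (τ : ℕ → Bool) {v : ℕ} (h : v < gg φ) :
    chi φ τ (24 * v + 1) = τ v := by
  unfold chi
  have e1 : (24 * v + 1) / 6 = 4 * v := by omega
  have e2 : (24 * v + 1) % 6 = 1 := by omega
  have e3 : 4 * v % 4 = 0 := by omega
  have e4 : 4 * v / 4 = v := by omega
  rw [e1, e2, e3, e4, if_pos (by omega), if_neg (by norm_num), if_neg (by norm_num), if_pos rfl]

theorem chi_y {φ : F3} (τ : ℕ → Bool) {v : ℕ} (h : v < gg φ) :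
    chi φ τ (24 * v + 7) = !(τ v) := by
  unfold chi
  have e1 : (24 * v + 7) / 6 = 4 * v + 1 := by omega
  have e2 : (24 * v + 7) % 6 = 1 := by omega
  have e3 : (4 * v + 1) % 4 = 1 := by omega
  have e4 : (4 * v + 1) / 4 = v := by omega
  rw [e1, e2, e3, e4, if_pos (by omega), if_neg (by norm_num), if_neg (by norm_num),
    if_neg (by norm_num)]

theorem chi_ll {φ : F3} (τ : ℕ → Bool) {l : Lit ℕ} (h : l.2 < gg φ) : chi φ τ (ll l) = tv τ l := by
  obtain ⟨s, v⟩ := l
  cases s with
  | true =>
    have : ll (true, v) = 24 * v + 1 := by simp [ll]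
    rw [this, chi_x τ h]
    simp [tv]
  | false =>
    have : ll (false, v) = 24 * v + 7 := by simp [ll]
    rw [this, chi_y τ h]
    simp [tv]

/-- All constraints are satisfied by the two sides. -/
theorem chi_sat {φ : F3} (hs : Small φ) {τ : ℕ → Bool} (hτ : ∀ k ∈ φ, Tr τ k) {i : ℕ}
    (hi : i < mm φ) :
    chi φ τ (hub φ i 0) = chi φ τ (hub φ i 1) ∨ chi φ τ (hub φ i 1) = chi φ τ (hub φ i 2) := by
  have g0 := gg_pos φ
  have hmm : mm φ = 4 * gg φ + 2 * φ.length := rfl
  have c0 : chi φ τ 0 = true := by simp [chi, g0]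
  have c2 : chi φ τ 2 = false := by simp [chi, g0]
  by_cases h1 : i < 4 * gg φ
  · by_cases h2 : i % 4 < 2
    · have k0 : hub φ i 0 = 0 := by
        simp only [hub, if_pos h1, if_pos h2, zero_ne_one, if_false]
      have k2 : hub φ i 2 = 2 := by
        simp only [hub, if_pos h1, if_pos h2, OfNat.ofNat_ne_one, if_false]
      rw [k0, k2, c0, c2]
      cases chi φ τ (hub φ i 1) <;> simp
    · have k0 : hub φ i 0 = 24 * (i / 4) + 1 := by
        simp only [hub, if_pos h1, if_neg h2, zero_ne_one, if_false, if_true]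
      have k2 : hub φ i 2 = 24 * (i / 4) + 7 := by
        simp only [hub, if_pos h1, if_neg h2, OfNat.ofNat_ne_one, OfNat.ofNat_ne_zero, if_false]
      rw [k0, k2, chi_x τ (by omega), chi_y τ (by omega)]
      cases chi φ τ (hub φ i 1) <;> cases τ (i / 4) <;> simp
  · have hk : (i - 4 * gg φ) / 2 < φ.length := by omega
    obtain ⟨b1, b2, b3⟩ := hs _ (cls_mem hk)
    have ht := hτ _ (cls_mem hk)
    have ht' : tv τ (cls φ ((i - 4 * gg φ) / 2)).1 = true ∨
        tv τ (cls φ ((i - 4 * gg φ) / 2)).2.1 = true ∨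
        tv τ (cls φ ((i - 4 * gg φ) / 2)).2.2 = true := by
      unfold tv
      simp only [decide_eq_true_eq]
      exact ht
    by_cases h2 : (i - 4 * gg φ) % 2 = 0
    · have e1 : (6 * i + 2) / 6 = i := by omega
      have d1 : chi φ τ (6 * i + 2) = (tv τ (cls φ ((i - 4 * gg φ) / 2)).2.1 ||
          tv τ (cls φ ((i - 4 * gg φ) / 2)).2.2) := by
        unfold chi
        rw [e1, if_neg h1]
      have k0 : hub φ i 0 = ll (cls φ ((i - 4 * gg φ) / 2)).1 := by simp [hub, h1, h2]
      have k1 : hub φ i 1 = 0 := by simp [hub, h1, h2]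
      have k2 : hub φ i 2 = 6 * i + 2 := by simp [hub, h1, h2]
      rw [k0, k1, k2, c0, chi_ll τ b1, d1]
      generalize tv τ (cls φ ((i - 4 * gg φ) / 2)).1 = x at *
      generalize tv τ (cls φ ((i - 4 * gg φ) / 2)).2.1 = y at *
      generalize tv τ (cls φ ((i - 4 * gg φ) / 2)).2.2 = z at *
      revert ht'
      cases x <;> cases y <;> cases z <;> simp
    · have e1 : (6 * i - 4) / 6 = i - 1 := by omega
      have e5 : ¬ i - 1 < 4 * gg φ := by omega
      have e7 : (i - 1 - 4 * gg φ) / 2 = (i - 4 * gg φ) / 2 := by omega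
      have d1 : chi φ τ (6 * i - 4) = (tv τ (cls φ ((i - 4 * gg φ) / 2)).2.1 ||
          tv τ (cls φ ((i - 4 * gg φ) / 2)).2.2) := by
        unfold chi
        rw [e1, if_neg e5, e7]
      have k0 : hub φ i 0 = ll (cls φ ((i - 4 * gg φ) / 2)).2.1 := by simp [hub, h1, h2]
      have k1 : hub φ i 1 = 6 * i - 4 := by simp [hub, h1, h2]
      have k2 : hub φ i 2 = ll (cls φ ((i - 4 * gg φ) / 2)).2.2 := by simp [hub, h1, h2]
      rw [k0, k1, k2, chi_ll τ b2, chi_ll τ b3, d1]
      generalize tv τ (cls φ ((i - 4 * gg φ) / 2)).2.1 = y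
      generalize tv τ (cls φ ((i - 4 * gg φ) / 2)).2.2 = z
      cases y <;> cases z <;> simp

/-- the state of a group -/
def st (φ : F3) (τ : ℕ → Bool) (j : ℕ) : Bool :=
  decide (chi φ τ (L φ (6 * j)) = chi φ τ (L φ (6 * j + 1)))

theorem L_group (φ : F3) (j r : ℕ) (hr : r < 3) : L φ (6 * j + r) = hub φ (j % mm φ) r := by
  unfold L
  have h1 : (6 * j + r) / 6 = j := by omega
  have h2 : (6 * j + r) % 6 = r := by omega
  rw [h1, h2, if_pos hr]

theorem st_false {φ : F3} (hs : Small φ) {τ : ℕ → Bool} (hτ : ∀ k ∈ φ, Tr τ k) {j : ℕ}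
    (hj : st φ τ j = false) : chi φ τ (L φ (6 * j + 1)) = chi φ τ (L φ (6 * j + 2)) := by
  have h := chi_sat hs hτ (Nat.mod_lt j (mm_pos φ))
  rw [← L_group φ j 0 (by norm_num), ← L_group φ j 1 (by norm_num), ← L_group φ j 2 (by norm_num),
    Nat.add_zero] at h
  rcases h with h | h
  · unfold st at hj
    rw [decide_eq_false_iff_not] at hj
    exact absurd h hj
  · exact h

/-- labels of a state: the classes `013`, `2`, `45` or the classes `0`, `125`, `34` -/
def ly (t : Bool) (u : ℕ) : ℕ :=
  if t = true then (if u % 6 = 1 then u - 1 else if u % 6 = 3 then u - 3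
    else if u % 6 = 5 then u - 1 else u)
  else (if u % 6 = 2 then u - 1 else if u % 6 = 5 then u - 4 else if u % 6 = 4 then u - 1 else u)

/-- the partition of a sequence of states -/
def ys (g : ℕ) (σ : ℕ → Bool) : List ℕ := (List.range (6 * g)).map (fun u => ly (σ (u / 6)) u)

/-- A lower bound for the number of classes. -/
theorem le_c {n N : ℕ} {Z : Setoid (Fin n)} (κ : ℕ → ℕ) (h : ∀ u v : Fin n, Z u v → κ u = κ v)
    (hN : ∀ m < N, ∃ u < n, κ u = m) : N ≤ c Z := by
  rw [c_eq_card]
  choose! s hs hs' using hN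
  have hinj : Function.Injective (fun m : Fin N =>
      (Quotient.mk Z ⟨s m, hs m m.2⟩ : Quotient Z)) := by
    intro a b hab
    have h1 := h _ _ (Quotient.exact hab)
    simp only at h1
    rw [hs' a a.2, hs' b b.2] at h1
    exact Fin.ext h1
  have := Nat.card_le_card_of_injective _ hinj
  rwa [Nat.card_eq_fintype_card, Fintype.card_fin] at this

theorem sup_imp {n : ℕ} {La Lb : ℕ → ℕ} (κ : ℕ → ℕ) (ha : ∀ u < n, κ u = κ (La u))
    (hb : ∀ u < n, κ u = κ (Lb u)) (u v : Fin n)
    (h : (part n ((List.range n).map La) ⊔ part n ((List.range n).map Lb)) u v) : κ u = κ v := by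
  have h1 : part n ((List.range n).map La) ⊔ part n ((List.range n).map Lb) ≤
      Setoid.ker (fun u : Fin n => κ u) := by
    refine sup_le ?_ ?_
    · intro u v huv
      rw [part_range] at huv
      change κ u = κ v
      rw [ha u u.2, ha v v.2, huv]
    · intro u v huv
      rw [part_range] at huv
      change κ u = κ v
      rw [hb u u.2, hb v v.2, huv]
  exact h1 h

/-- The number of classes of the partition of a sequence of states is at most `3 g`. -/
theorem c_ys_le (g : ℕ) (σ : ℕ → Bool) : c (part (6 * g) (ys g σ)) ≤ 3 * g := by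
  rw [c_eq_card]
  have hsurj : Function.Surjective (fun m : Fin (3 * g) =>
      (Quotient.mk (part (6 * g) (ys g σ)) ⟨2 * m, by omega⟩)) := by
    intro q
    induction q using Quotient.ind with | _ u =>
    have key : ∃ m : ℕ, 2 * m < 6 * g ∧ (2 * m) / 6 = (u : ℕ) / 6 ∧
        ly (σ ((2 * m) / 6)) (2 * m) = ly (σ ((u : ℕ) / 6)) u := by
      have hu := u.2
      have hr : (u : ℕ) % 6 < 6 := Nat.mod_lt _ (by norm_num)
      cases hσ : σ ((u : ℕ) / 6) with
      | true =>
        refine ⟨if (u : ℕ) % 6 = 3 then ((u : ℕ) - 3) / 2 else (u : ℕ) / 2, ?_, ?_, ?_⟩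
        · split_ifs <;> omega
        · split_ifs <;> omega
        · have e : (2 * (if (u : ℕ) % 6 = 3 then ((u : ℕ) - 3) / 2 else (u : ℕ) / 2)) / 6 =
              (u : ℕ) / 6 := by
            split_ifs <;> omega
          rw [e, hσ]
          unfold ly
          simp only [if_true]
          split_ifs <;> omega
      | false =>
        refine ⟨if (u : ℕ) % 6 = 5 then ((u : ℕ) - 3) / 2 else ((u : ℕ) + 1) / 2, ?_, ?_, ?_⟩
        · split_ifs <;> omega
        · split_ifs <;> omega
        · have e : (2 * (if (u : ℕ) % 6 = 5 then ((u : ℕ) - 3) / 2 else ((u : ℕ) + 1) / 2)) / 6 =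
              (u : ℕ) / 6 := by
            split_ifs <;> omega
          rw [e, hσ]
          unfold ly
          simp only [Bool.false_eq_true, if_false]
          split_ifs <;> omega
    obtain ⟨m, hm, _, hl⟩ := key
    refine ⟨⟨m, by omega⟩, Quotient.sound ?_⟩
    change part (6 * g) (ys g σ) _ _
    unfold ys
    rw [part_range]
    exact hl
  have := Nat.card_le_card_of_surjective _ hsurj
  rwa [Nat.card_eq_fintype_card (α := Fin (3 * g)), Fintype.card_fin] at this

theorem ly_div (t : Bool) (u : ℕ) : ly t u / 6 = u / 6 := by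
  unfold ly
  split_ifs <;> omega

theorem la_div (u : ℕ) : la u / 6 = u / 6 := by
  unfold la
  split_ifs <;> omega

theorem lb_div (u : ℕ) : lb u / 6 = u / 6 := by
  unfold lb
  split_ifs <;> omega

/-- The first coordinate function. -/
def k1 (σ : ℕ → Bool) (u : ℕ) : ℕ :=
  2 * (u / 6) + (if u % 6 = 2 ∨ (σ (u / 6) = false ∧ (u % 6 = 1 ∨ u % 6 = 5)) then 1 else 0)

/-- The second coordinate function. -/
def k2 (σ : ℕ → Bool) (u : ℕ) : ℕ :=
  2 * (u / 6) + (if u % 6 = 2 ∨ u % 6 = 4 ∨ u % 6 = 5 ∨
    (σ (u / 6) = false ∧ (u % 6 = 1 ∨ u % 6 = 3)) then 1 else 0)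

theorem c1_ge (g : ℕ) (σ : ℕ → Bool) :
    2 * g ≤ c (part (6 * g) ((List.range (6 * g)).map la) ⊔ part (6 * g) (ys g σ)) := by
  refine le_c (k1 σ) (fun u v h => sup_imp (k1 σ) ?_ ?_ u v h) ?_
  · intro u _
    unfold k1
    rw [la_div]
    unfold la
    cases hσ : σ (u / 6) <;> simp only [true_and, false_and, or_false,
      reduceCtorEq] <;> split_ifs <;> omega
  · intro u _
    unfold k1
    rw [ly_div]
    unfold ly
    cases hσ : σ (u / 6) <;> simp only [Bool.false_eq_true, if_false, if_true, true_and,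
      false_and, or_false, reduceCtorEq] <;> split_ifs <;> omega
  · intro m hm
    rcases (by omega : m % 2 = 0 ∨ m % 2 = 1) with e | e
    · refine ⟨6 * (m / 2), by omega, ?_⟩
      unfold k1
      rw [if_neg (by omega)]
      omega
    · refine ⟨6 * (m / 2) + 2, by omega, ?_⟩
      unfold k1
      rw [if_pos (by omega)]
      omega

theorem c2_ge (g : ℕ) (σ : ℕ → Bool) :
    2 * g ≤ c (part (6 * g) ((List.range (6 * g)).map lb) ⊔ part (6 * g) (ys g σ)) := by
  refine le_c (k2 σ) (fun u v h => sup_imp (k2 σ) ?_ ?_ u v h) ?_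
  · intro u _
    unfold k2
    rw [lb_div]
    unfold lb
    cases hσ : σ (u / 6) <;> simp only [true_and, false_and, or_false,
      reduceCtorEq] <;> split_ifs <;> omega
  · intro u _
    unfold k2
    rw [ly_div]
    unfold ly
    cases hσ : σ (u / 6) <;> simp only [Bool.false_eq_true, if_false, if_true, true_and,
      false_and, or_false, reduceCtorEq] <;> split_ifs <;> omega
  · intro m hm
    rcases (by omega : m % 2 = 0 ∨ m % 2 = 1) with e | e
    · refine ⟨6 * (m / 2), by omega, ?_⟩
      unfold k2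
      rw [if_neg (by omega)]
      omega
    · refine ⟨6 * (m / 2) + 2, by omega, ?_⟩
      unfold k2
      rw [if_pos (by omega)]
      omega

/-- side as a number -/
def sd (b : Bool) : ℕ := if b = true then 0 else 1

/-- The third coordinate function. -/
def k3 (φ : F3) (τ : ℕ → Bool) (u : ℕ) : ℕ :=
  if u % 6 < 3 then sd (chi φ τ (L φ u))
  else if st φ τ (u / 6) = true then
    (if u % 6 = 3 then sd (chi φ τ (L φ (6 * (u / 6)))) else 2 + u / 6)
  else (if u % 6 = 5 then sd (chi φ τ (L φ (6 * (u / 6) + 1))) else 2 + u / 6)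

theorem c3_ge {φ : F3} (hs : Small φ) {τ : ℕ → Bool} (hτ : ∀ k ∈ φ, Tr τ k) :
    ng φ + 2 ≤ c (part (6 * ng φ) (X φ) ⊔ part (6 * ng φ) (ys (ng φ) (st φ τ))) := by
  refine le_c (k3 φ τ) (fun u v h => sup_imp (k3 φ τ) ?_ ?_ u v h) ?_
  · intro u _
    by_cases hu : u % 6 < 3
    · have hL := isHub_L hs hu
      unfold k3
      rw [if_pos hu, if_pos hL.mod, L_L hs]
    · have e : L φ u = u := by
        unfold L
        rw [if_neg hu]
      rw [e]
  · intro u _
    have h6 : u = 6 * (u / 6) + u % 6 := by omega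
    have hr : u % 6 < 6 := Nat.mod_lt _ (by norm_num)
    generalize u / 6 = x at *
    generalize u % 6 = r at *
    subst h6
    have m0 : ∀ s < 6, (6 * x + s) / 6 = x := fun s hs => by omega
    have m1 : ∀ s < 6, (6 * x + s) % 6 = s := fun s hs => by omega
    have kk : ∀ s < 6, k3 φ τ (6 * x + s) = if s < 3 then sd (chi φ τ (L φ (6 * x + s)))
        else if st φ τ x = true then
          (if s = 3 then sd (chi φ τ (L φ (6 * x))) else 2 + x)
        else (if s = 5 then sd (chi φ τ (L φ (6 * x + 1))) else 2 + x) := by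
      intro s hs
      unfold k3
      rw [m0 s hs, m1 s hs]
    have ll' : ∀ t : Bool, ∀ s < 6, ly t (6 * x + s) = if t = true then
        (if s = 1 then 6 * x + 0 else if s = 3 then 6 * x + 0 else if s = 5 then 6 * x + 4
          else 6 * x + s)
        else (if s = 2 then 6 * x + 1 else if s = 5 then 6 * x + 1 else if s = 4 then 6 * x + 3
          else 6 * x + s) := by
      intro t s hs
      unfold ly
      rw [m1 s hs]
      split_ifs <;> omega
    cases hst : st φ τ x with
    | true =>
      have h01 : chi φ τ (L φ (6 * x)) = chi φ τ (L φ (6 * x + 1)) := by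
        unfold st at hst
        rwa [decide_eq_true_eq] at hst
      rw [ll' true r hr]
      interval_cases r
      · rfl
      · simp only [if_true]
        rw [kk 1 (by norm_num), kk 0 (by norm_num)]
        simp [h01]
      · simp
      · simp only [if_true]
        rw [if_neg (by norm_num), kk 3 (by norm_num), kk 0 (by norm_num)]
        simp [hst]
      · simp
      · simp only [if_true]
        rw [if_neg (by norm_num), if_neg (by norm_num), kk 5 (by norm_num), kk 4 (by norm_num)]
        simp [hst]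
    | false =>
      have h12 := st_false hs hτ hst
      rw [ll' false r hr]
      interval_cases r
      · simp
      · simp
      · simp only [Bool.false_eq_true, if_true, if_false]
        rw [kk 2 (by norm_num), kk 1 (by norm_num)]
        simp [h12]
      · simp
      · simp only [Bool.false_eq_true, if_true, if_false]
        rw [if_neg (by norm_num), if_neg (by norm_num), kk 4 (by norm_num), kk 3 (by norm_num)]
        simp [hst]
      · simp only [Bool.false_eq_true, if_true, if_false]
        rw [if_neg (by norm_num), kk 5 (by norm_num), kk 1 (by norm_num)]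
        simp [hst]
  · have g0 := gg_pos φ
    have hn := ng_pos φ
    have hmn := mm_le_ng φ
    have hmp := mm_pos φ
    have hL0 : L φ 0 = 0 := IsHub.L_eq (Or.inl rfl)
    have hL2 : L φ 2 = 2 := IsHub.L_eq (Or.inr (Or.inl rfl))
    intro m hm
    rcases (by omega : m = 0 ∨ m = 1 ∨ 2 ≤ m) with rfl | rfl | hm2
    · refine ⟨0, by omega, ?_⟩
      simp [k3, hL0, chi, sd, g0]
    · refine ⟨2, by omega, ?_⟩
      simp [k3, hL2, chi, sd, g0]
    · refine ⟨6 * (m - 2) + 4, by omega, ?_⟩
      have e1 : (6 * (m - 2) + 4) / 6 = m - 2 := by omega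
      have e2 : (6 * (m - 2) + 4) % 6 = 4 := by omega
      unfold k3
      rw [e1, e2]
      split_ifs <;> omega

theorem C3_ge {φ : F3} : ng φ + 4 ≤ C3 φ := by
  have h1 := c1_ge (ng φ) (fun _ => true)
  have h2 := c2_ge (ng φ) (fun _ => true)
  have h3 : c (part (6 * ng φ) ((List.range (6 * ng φ)).map la)) = cnt (6 * ng φ) la :=
    c_part (fun u hu => la_lt hu) (fun u _ => la_la u)
  have h4 : c (part (6 * ng φ) ((List.range (6 * ng φ)).map lb)) = cnt (6 * ng φ) lb :=
    c_part (fun u hu => lb_lt hu) (fun u _ => lb_lb u)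
  have h5 := c_anti (le_sup_left : part (6 * ng φ) ((List.range (6 * ng φ)).map la) ≤
    part (6 * ng φ) ((List.range (6 * ng φ)).map la) ⊔
      part (6 * ng φ) (ys (ng φ) (fun _ => true)))
  have h6 := c_anti (le_sup_left : part (6 * ng φ) ((List.range (6 * ng φ)).map lb) ≤
    part (6 * ng φ) ((List.range (6 * ng φ)).map lb) ⊔
      part (6 * ng φ) (ys (ng φ) (fun _ => true)))
  have hmn := mm_le_ng φ
  have hmp := mm_pos φ
  unfold C3
  omega

/-- **Upper bound.** -/
theorem upper3 {φ : F3} (hs : Small φ) {τ : ℕ → Bool} (hτ : ∀ k ∈ φ, Tr τ k) :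
    cost (6 * ng φ) (inst3 φ) (part _ (ys (ng φ) (st φ τ))) ≤ thr3 φ := by
  have h0 := cost_inst3 hs (part _ (ys (ng φ) (st φ τ)))
  have h1 := c1_ge (ng φ) (st φ τ)
  have h2 := c2_ge (ng φ) (st φ τ)
  have h3 := c3_ge hs hτ
  have h4 := c_ys_le (ng φ) (st φ τ)
  unfold thr3
  omega

end Pool.Agent.Y410.PM3
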